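import Pool.Agent.Helper75.HD.Cn

/-!
# Small predense sets
-/

set_option autoImplicit false
set_option linter.unusedSectionVars false

namespace Pool.Agent.Helper75.HD

open Cardinal MeasureTheory Set Filter Topology
open Pool.Agent.TH773.PSet Pool.Agent.R593.Rnd Pool.Agent.R592.Ent
open scoped ENNReal

variable {I J K : Type} [LinearOrder I] {be : I → Cardinal.{0}} {lv : K → I}

/-- `a` is the condition with the enumeration `c`, `s` -/
def Rep {L : Type} {X0 : Set K} (c : L → Option (X0 × X0)) (s : L → J) (a : Cn J be lv) : Prop :=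
  (∀ t, t ∈ a.dom ↔ ∃ (l : L) (z : X0 × X0), c l = some z ∧ s l = t.1 ∧ z.1.1 = t.2) ∧
  ∀ (l : L) (z : X0 × X0), c l = some z → a.val (s l, z.1.1) = z.2.1

lemma lt_of_pow {L M : Type} (hM : ℵ₀ ≤ #M) (hL : #M ^ #L ≤ #M) : #L ≤ #M := by
  refine (cantor #L).le.trans (le_trans ?_ hL)
  exact power_le_power_right ((natCast_lt_aleph0 (n := 2)).le.trans hM)

lemma exists_partial {T L : Type} (h : #T ≤ #L) : ∃ F : L → Option T, ∀ t, ∃ l, F l = some t := by
  classical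
  obtain ⟨E⟩ := h
  refine ⟨fun l => if h : ∃ t, E t = l then some h.choose else none, fun t => ⟨E t, ?_⟩⟩
  have h1 : ∃ t', E t' = E t := ⟨t, rfl⟩
  show (if h : ∃ t', E t' = E t then some h.choose else none) = some t
  rw [dif_pos h1]
  exact congrArg some (E.injective h1.choose_spec)

theorem exists_small (hO : Ok be lv) [Nonempty J] {L M : Type} {X0 : Set K}
    (hX : ∀ x y, lv x = lv y → x ∈ X0 → y ∈ X0)
    (hM : ℵ₀ ≤ #M) (hL : #M ^ #L ≤ #M) (hX0 : #X0 ≤ #M)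
    (hdom : ∀ a : Cn J be lv, #{t : J × K // t ∈ a.dom ∧ t.2 ∈ X0} ≤ #L)
    {D : Set (Cn J be lv)} (hD : ∀ a, ∃ a' ≤ a, a' ∈ D) :
    ∃ (ι : Type) (d : ι → Cn J be lv), #ι ≤ #M ∧ (∀ i, d i ∈ D) ∧
      ∀ a : Cn J be lv, ∃ i, ∀ t ∈ a.dom, t.2 ∈ X0 → t ∈ (d i).dom → a.val t = (d i).val t := by
  classical
  choose Φ hΦ hΦD using hD
  obtain ⟨j0⟩ := (inferInstance : Nonempty J)
  have hLM : #L ≤ #M := lt_of_pow hM hL
  have henum : ∀ a : Cn J be lv, ∃ e : M → J, ∀ t ∈ a.dom, t.2 ∈ X0 → t.1 ∈ range e := by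
    intro a
    obtain ⟨F, hF⟩ := exists_partial ((hdom a).trans hLM)
    refine ⟨fun m => (F m).elim j0 fun t => t.1.1, fun t ht htX => ?_⟩
    obtain ⟨m, hm⟩ := hF ⟨t, ht, htX⟩
    exact ⟨m, by simp only [hm, Option.elim]⟩
  choose e he using henum
  let cnd : (L → Option (X0 × X0)) → (L → J) → Cn J be lv := fun c s =>
    if h : ∃ a : Cn J be lv, Rep c s a then h.choose else emp J be lv
  have hC : #(L → Option (X0 × X0)) ≤ #M := by
    rw [mk_arrow, lift_id, lift_id]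
    refine le_trans (power_le_power_right ?_) hL
    rw [mk_option, mk_prod, lift_id]
    calc #X0 * #X0 + 1 ≤ #M * #M + #M :=
          add_le_add (mul_le_mul' hX0 hX0) (one_le_aleph0.trans hM)
      _ = #M := by rw [mul_eq_self hM, add_eq_self hM]
  obtain ⟨A, hjA, hA, hAcl⟩ := exists_closed hM hC hL
    (fun c s m => e (Φ (cnd c s)) m) j0
  refine ⟨(L → Option (X0 × X0)) × (L → A), fun i => Φ (cnd i.1 fun l => (i.2 l).1), ?_,
    fun i => hΦD _, fun a => ?_⟩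
  · rw [mk_prod, lift_id, lift_id]
    have h2 : #(L → A) ≤ #M := by
      rw [mk_arrow, lift_id, lift_id]
      exact (power_le_power_right hA).trans hL
    exact (mul_le_mul' hC h2).trans (mul_eq_self hM).le
  · let T : Type := {t : J × K // t ∈ a.dom ∧ t.2 ∈ X0 ∧ t.1 ∈ A}
    have hT : #T ≤ #L := (mk_subtype_le_of_subset fun t ht => ⟨ht.1, ht.2.1⟩).trans (hdom a)
    obtain ⟨F, hF⟩ := exists_partial hT
    let c : L → Option (X0 × X0) := fun l => (F l).map fun t =>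
      (⟨t.1.2, t.2.2.1⟩, ⟨a.val t.1, hX _ _ (a.hlv t.1 t.2.1).symm t.2.2.1⟩)
    let s : L → A := fun l => (F l).elim ⟨j0, hjA⟩ fun t => ⟨t.1.1, t.2.2.2⟩
    let a' : Cn J be lv := a.res {t | t.2 ∈ X0 ∧ t.1 ∈ A}
    have hc : ∀ l z, c l = some z → ∃ t : T, F l = some t ∧ (s l).1 = t.1.1 ∧ z.1.1 = t.1.2 ∧
        z.2.1 = a.val t.1 := by
      intro l z hz
      obtain ⟨t, ht, htz⟩ := Option.map_eq_some_iff.1 hz
      refine ⟨t, ht, ?_, ?_, ?_⟩
      · simp only [s, ht, Option.elim]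
      · rw [← htz]
      · rw [← htz]
    have hF' : ∀ t : T, ∃ l z, c l = some z ∧ (s l).1 = t.1.1 ∧ z.1.1 = t.1.2 ∧
        z.2.1 = a.val t.1 := by
      intro t
      obtain ⟨l, hl⟩ := hF t
      refine ⟨l, (⟨t.1.2, t.2.2.1⟩, ⟨a.val t.1, hX _ _ (a.hlv t.1 t.2.1).symm t.2.2.1⟩), ?_, ?_,
        rfl, rfl⟩
      · simp only [c, hl, Option.map_some]
      · simp only [s, hl, Option.elim]
    have hRep : Rep c (fun l => (s l).1) a' := by
      refine ⟨fun t => ⟨fun ht => ?_, ?_⟩, fun l z hz => ?_⟩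
      · obtain ⟨l, z, h1, h2, h3, -⟩ := hF' ⟨t, ht.1, ht.2.1, ht.2.2⟩
        exact ⟨l, z, h1, h2, h3⟩
      · rintro ⟨l, z, h1, h2, h3⟩
        obtain ⟨t', -, h5, h6, -⟩ := hc l z h1
        have h7 : t = t'.1 := Prod.ext (h2.symm.trans h5) (h3.symm.trans h6)
        rw [h7]
        exact ⟨t'.2.1, t'.2.2.1, t'.2.2.2⟩
      · obtain ⟨t', -, h5, h6, h7⟩ := hc l z hz
        show a.val ((s l).1, z.1.1) = z.2.1
        rw [h5, h6, h7]
    have hex : ∃ a : Cn J be lv, Rep c (fun l => (s l).1) a := ⟨a', hRep⟩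
    have hb : Rep c (fun l => (s l).1) (cnd c fun l => (s l).1) := by
      show Rep c (fun l => (s l).1) (if h : ∃ a : Cn J be lv, Rep c (fun l => (s l).1) a then
        h.choose else emp J be lv)
      rw [dif_pos hex]
      exact hex.choose_spec
    refine ⟨(c, s), fun t ht htX htd => ?_⟩
    change t ∈ (Φ (cnd c fun l => (s l).1)).dom at htd
    show a.val t = (Φ (cnd c fun l => (s l).1)).val t
    have h1 : t.1 ∈ A := by
      obtain ⟨m, hm⟩ := he _ t htd htX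
      rw [← hm]
      exact hAcl c (fun l => (s l).1) (fun l => (s l).2) m
    obtain ⟨l, z, h2, h3, h4, h5⟩ := hF' ⟨t, ht, htX, h1⟩
    have h6 : t ∈ (cnd c fun l => (s l).1).dom := (hb.1 t).2 ⟨l, z, h2, h3, h4⟩
    rw [(hΦ (cnd c fun l => (s l).1)).2 t h6]
    have h7 := hb.2 l z h2
    have h8 : ((s l).1, z.1.1) = t := Prod.ext h3 h4
    rw [h8] at h7
    rw [h7, h5]

lemma two_pow_inf (hO : Ok be lv) (i : I) : ℵ₀ ≤ (2 : Cardinal.{0}) ^ be i :=
  (hO.inf i).trans (cantor _).le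

lemma inf_K (hO : Ok be lv) : ℵ₀ ≤ #K := by
  obtain ⟨i⟩ := hO.ne
  exact (two_pow_inf hO i).trans (hO.lt i).le

lemma pow_mono (hO : Ok be lv) {i j : I} (h : i ≤ j) : (2 : Cardinal.{0}) ^ be i ≤ 2 ^ be j := by
  rcases h.eq_or_lt with rfl | h
  · exact le_rfl
  · exact (hO.pow i j h).trans (cantor _).le

lemma mk_levels (hO : Ok be lv) (i : I) : #{x : K // lv x ≤ i} ≤ 2 ^ be i := by
  have h1 : {x : K | lv x ≤ i} ⊆ ⋃ j : Set.Iic i, {x | lv x = j.1} := by
    intro x hx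
    exact mem_iUnion.2 ⟨⟨lv x, hx⟩, rfl⟩
  refine (mk_le_mk_of_subset h1).trans ((mk_iUnion_le_sum_mk).trans ((sum_le_sum _
    (fun _ => 2 ^ be i) fun j : Set.Iic i => (hO.lev j.1).le.trans (pow_mono hO j.2)).trans ?_))
  rw [sum_const']
  calc #(Set.Iic i) * 2 ^ be i ≤ 2 ^ be i * 2 ^ be i :=
        mul_le_mul' ((hO.ctb i).le_aleph0.trans (two_pow_inf hO i)) le_rfl
    _ = 2 ^ be i := mul_eq_self (two_pow_inf hO i)

/-- predense sets for the levels `≤ i` -/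
theorem small_lo (hO : Ok be lv) [Nonempty J] (i : I) {D : Set (Cn J be lv)}
    (hD : ∀ a, ∃ a' ≤ a, a' ∈ D) :
    ∃ (ι : Type) (d : ι → Cn J be lv), #ι ≤ 2 ^ be i ∧ (∀ i, d i ∈ D) ∧
      ∀ a : Cn J be lv, ∃ x, AgreeLo i a (d x) := by
  obtain ⟨ι, d, h1, h2, h3⟩ := exists_small hO (L := (be i).out) (M := (2 ^ be i : Cardinal).out)
    (X0 := {x | lv x ≤ i}) (fun x y h hx => h.symm.trans_le hx) (by rw [mk_out]; exact two_pow_inf hO i)
    (by rw [mk_out, mk_out, ← power_mul, mul_eq_self (hO.inf i)])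
    (by rw [mk_out]; exact mk_levels hO i)
    (fun a => by rw [mk_out]; exact a.small i) hD
  rw [mk_out] at h1
  exact ⟨ι, d, h1, h2, h3⟩

/-- predense sets for all levels -/
theorem small_all (hO : Ok be lv) [Nonempty J] {D : Set (Cn J be lv)}
    (hD : ∀ a, ∃ a' ≤ a, a' ∈ D) :
    ∃ (ι : Type) (d : ι → Cn J be lv), #ι ≤ 2 ^ #K ∧ (∀ i, d i ∈ D) ∧
      ∀ a : Cn J be lv, ∃ x, Agree a (d x) := by
  have hK : ℵ₀ ≤ #K := inf_K hO
  obtain ⟨ι, d, h1, h2, h3⟩ := exists_small hO (L := K) (M := K → Bool)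
    (X0 := Set.univ) (fun x y h hx => trivial) (by
      rw [mk_arrow, lift_id, lift_id, mk_bool]
      exact hK.trans (cantor _).le)
    (by rw [mk_arrow, lift_id, lift_id, mk_bool, ← power_mul, mul_eq_self hK])
    (by
      rw [mk_arrow, lift_id, lift_id, mk_bool, mk_univ]
      exact (cantor _).le)
    (fun a => by
      have h1 : {t : J × K | t ∈ a.dom ∧ t.2 ∈ (Set.univ : Set K)} ⊆
          ⋃ i : I, {t | t ∈ a.dom ∧ lv t.2 ≤ i} := by
        rintro t ⟨ht, -⟩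
        exact mem_iUnion.2 ⟨lv t.2, ht, le_rfl⟩
      refine (mk_le_mk_of_subset h1).trans ((mk_iUnion_le_sum_mk).trans ((sum_le_sum _
        (fun _ => #K) fun i => (a.small i).trans ((cantor _).le.trans (hO.lt i).le)).trans ?_))
      rw [sum_const']
      exact (mul_le_mul' hO.idx le_rfl).trans (mul_eq_self hK).le) hD
  rw [mk_arrow, lift_id, lift_id, mk_bool] at h1
  exact ⟨ι, d, h1, h2, fun a => by
    obtain ⟨x, hx⟩ := h3 a
    exact ⟨x, fun t ht ht' => hx t ht trivial ht'⟩⟩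

theorem lo_cc (hO : Ok be lv) [Nonempty J] (i : I) {X : Type} (f : X → Cn J be lv)
    (h : ∀ x x', x ≠ x' → ¬ AgreeLo i (f x) (f x')) : #X ≤ 2 ^ be i := by
  obtain ⟨ι, d, hι, hd, hd'⟩ := small_lo hO i (D := {a : Cn J be lv |
      (∃ x, ∀ t ∈ (f x).dom, lv t.2 ≤ i → t ∈ a.dom ∧ a.val t = (f x).val t) ∨
        ∀ x, ¬ AgreeLo i a (f x)}) (by
    intro a
    by_cases hex : ∃ x, AgreeLo i a (f x)
    · obtain ⟨x, hx⟩ := hex
      obtain ⟨c, hc, hc', -⟩ := glue2 hO (a := a) (b := (f x).res {t | lv t.2 ≤ i})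
        fun t h1 h2 => hx t h1 h2.2 h2.1
      exact ⟨c, hc, Or.inl ⟨x, fun t ht hti => ⟨hc'.1 ⟨ht, hti⟩, hc'.2 t ⟨ht, hti⟩⟩⟩⟩
    · push Not at hex
      exact ⟨a, le_rfl, Or.inr hex⟩)
  choose g hg using fun x => hd' (f x)
  have h1 : ∀ x, ∀ t ∈ (f x).dom, lv t.2 ≤ i → t ∈ (d (g x)).dom ∧
      (d (g x)).val t = (f x).val t := by
    intro x
    rcases hd (g x) with ⟨x', hx'⟩ | h2
    · have h3 : x = x' := by
        by_contra hne
        refine h x x' hne fun t ht hti ht' => ?_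
        rw [← (hx' t ht' hti).2]
        exact hg x t ht hti (hx' t ht' hti).1
      rw [← h3] at hx'
      exact hx'
    · exact absurd (fun t ht hti ht' => (hg x t ht' hti ht).symm) (h2 x)
  have h2 : Function.Injective g := by
    intro x x' hxx
    by_contra hne
    refine h x x' hne fun t ht hti ht' => ?_
    rw [← (h1 x t ht hti).2, ← (h1 x' t ht' hti).2, hxx]
  exact (mk_le_of_injective h2).trans hι

/-- **The main lemma**: dense open sets, many for each level, are captured by small predense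
sets. -/
theorem capture (hO : Ok be lv) [Nonempty J] {M : Type} (l : M → I)
    (hl : ∀ i, #{m : M // l m = i} ≤ 2 ^ be i) {D : M → Set (Cn J be lv)}
    (hd : ∀ m a, ∃ b ≤ a, b ∈ D m) (c0 : Cn J be lv) :
    ∃ c ≤ c0, ∀ m, ∃ T : Set (Cn J be lv), #T ≤ 2 ^ be (l m) ∧ (∀ d ∈ T, d ∈ D m) ∧
      ∀ a ≤ c, ∃ d ∈ T, Agree a d := by
  classical
  let hi : M × Cn J be lv → Cn J be lv := fun t => t.2.res {x | l t.1 < lv x.2}
  let 𝒮 : Set (Set (M × Cn J be lv)) := {S | (∀ t ∈ S, t.2 ∈ D t.1 ∧ t.2 ≤ c0) ∧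
    ∀ t ∈ S, ∀ t' ∈ S, t ≠ t' → Agree (hi t) (hi t') ∧ (t.1 = t'.1 → ¬ AgreeLo (l t.1) t.2 t'.2)}
  obtain ⟨S, hS⟩ : ∃ S, Maximal (fun S => S ∈ 𝒮) S := by
    refine zorn_subset 𝒮 fun c hc hchain => ⟨⋃₀ c, ⟨?_, ?_⟩, fun s hs => subset_sUnion_of_mem hs⟩
    · rintro t ⟨s, hs, hts⟩
      exact (hc hs).1 t hts
    · rintro t ⟨s, hs, hts⟩ t' ⟨s', hs', hts'⟩ hne
      rcases hchain.total hs hs' with h | h
      · exact (hc hs').2 t (h hts) t' hts' hne
      · exact (hc hs).2 t hts t' (h hts') hne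
  have hcard : ∀ m, #{a : Cn J be lv // (m, a) ∈ S} ≤ 2 ^ be (l m) := by
    intro m
    refine lo_cc hO (l m) (fun a : {a : Cn J be lv // (m, a) ∈ S} => a.1) fun x x' hne => ?_
    exact (hS.prop.2 (m, x.1) x.2 (m, x'.1) x'.2 fun h => hne (Subtype.ext
      (congrArg Prod.snd h))).2 rfl
  let f : Option S → Cn J be lv := fun t => t.elim c0 fun t => hi t.1
  obtain ⟨c, hc, -⟩ := glue hO f (by
    intro i
    have h1 : {s : Option S | ∃ t ∈ (f s).dom, lv t.2 ≤ i} ⊆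
        insert none (⋃ j : Set.Iio i, ⋃ m : {m : M // l m = j.1},
          range fun a : {a : Cn J be lv // (m.1, a) ∈ S} => some ⟨(m.1, a.1), a.2⟩) := by
      rintro (_ | s) ⟨t, ht, hti⟩
      · exact mem_insert _ _
      · right
        have h2 : l s.1.1 < i := lt_of_lt_of_le ht.2 hti
        refine mem_iUnion.2 ⟨⟨l s.1.1, h2⟩, mem_iUnion.2 ⟨⟨s.1.1, rfl⟩, ⟨⟨s.1.2, s.2⟩, rfl⟩⟩⟩
    have h3 : #(⋃ j : Set.Iio i, ⋃ m : {m : M // l m = j.1},
          range fun a : {a : Cn J be lv // (m.1, a) ∈ S} => (some ⟨(m.1, a.1), a.2⟩ : Option S))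
        ≤ be i := by
      refine (mk_iUnion_le_sum_mk).trans ((sum_le_sum _ (fun _ => be i)
        fun j : Set.Iio i => ?_).trans ?_)
      · refine (mk_iUnion_le_sum_mk).trans ((sum_le_sum _ (fun _ => 2 ^ be j.1)
          fun m : {m : M // l m = j.1} => ?_).trans ?_)
        · refine mk_range_le.trans ((hcard m.1).trans ?_)
          rw [m.2]
        · rw [sum_const']
          refine (mul_le_mul' (hl j.1) le_rfl).trans ?_
          rw [mul_eq_self (two_pow_inf hO j.1)]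
          exact hO.pow j.1 i j.2
      · rw [sum_const']
        calc #(Set.Iio i) * be i ≤ be i * be i :=
              mul_le_mul' (((hO.ctb i).mono Iio_subset_Iic_self).le_aleph0.trans (hO.inf i)) le_rfl
          _ = be i := mul_eq_self (hO.inf i)
    refine (mk_le_mk_of_subset h1).trans (mk_insert_le.trans ?_)
    exact (add_le_add h3 (one_le_aleph0.trans (hO.inf i))).trans (add_eq_self (hO.inf i)).le) (by
    rintro (_ | t) (_ | t')
    · exact fun _ _ _ => rfl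
    · exact agree_of_le (hS.prop.1 t'.1 t'.2).2 (le_res _ _)
    · exact agree_of_le (le_res _ _) (hS.prop.1 t.1 t.2).2
    · by_cases h : t = t'
      · rw [h]
        exact fun _ _ _ => rfl
      · exact (hS.prop.2 t.1 t.2 t'.1 t'.2 fun h' => h (Subtype.ext h')).1)
  have hc0 : c ≤ c0 := hc none
  have hcS : ∀ t ∈ S, c ≤ hi t := fun t ht => hc (some ⟨t, ht⟩)
  have key : ∀ (m : M) (a b : Cn J be lv), b ≤ c → (m, a) ∈ S → AgreeLo (l m) b a → Agree b a := by
    intro m a b hb ha hba t h1 h2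
    rcases le_or_gt (lv t.2) (l m) with h3 | h3
    · exact hba t h1 h3 h2
    · have h4 : t ∈ (hi (m, a)).dom := ⟨h2, h3⟩
      exact (hb.trans (hcS _ ha)).2 t h4
  refine ⟨c, hc0, fun m => ⟨{a | (m, a) ∈ S}, hcard m, fun d hd => (hS.prop.1 _ hd).1,
    fun a ha => ?_⟩⟩
  by_contra hcon
  push Not at hcon
  obtain ⟨b, hb, hbD⟩ := hd m a
  have hin : insert (m, b) S ∈ 𝒮 := by
    have h5 : ∀ t' ∈ S, Agree (hi (m, b)) (hi t') ∧ (m = t'.1 → ¬ AgreeLo (l m) b t'.2) := by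
      intro t' ht'
      refine ⟨agree_of_le (le_res b _) (hb.trans (ha.trans (hcS t' ht'))), ?_⟩
      rintro rfl hlo
      refine hcon t'.2 ht' (key t'.1 t'.2 a ha ht' fun t h1 h2 h3 => ?_)
      rw [← hb.2 t h1]
      exact hlo t (hb.1 h1) h2 h3
    constructor
    · rintro t (rfl | ht)
      · exact ⟨hbD, hb.trans (ha.trans hc0)⟩
      · exact hS.prop.1 t ht
    · rintro t (rfl | ht) t' (rfl | ht') hne
      · exact absurd rfl hne
      · exact h5 t' ht'
      · refine ⟨(h5 t ht).1.symm, fun h6 h7 => (h5 t ht).2 h6.symm ?_⟩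
        rw [h6] at h7
        exact fun t h1 h2 h3 => (h7 t h3 h2 h1).symm
      · exact hS.prop.2 t ht t' ht' hne
  have h1 : (m, b) ∈ S := hS.le_of_ge hin (subset_insert _ _) (mem_insert _ _)
  exact hcon b h1 (agree_of_le hb le_rfl)

end Pool.Agent.Helper75.HD
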