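import Pool.Graph.R_seed8.R592.Hd.Ground

/-!
# A product of levels with conditions of growing size, and a measure algebra

`K` is divided into the levels `lv ⁻¹ {i}`, `i ∈ I`, of size `2 ^ be i`. A condition is a partial
function from `J × K` to `K` which preserves the level and whose restriction to the levels `≤ i` has
at most `be i` elements, for each `i`.
-/

set_option autoImplicit false
set_option linter.unusedSectionVars false

namespace Pool.Agent.Helper75.HD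

open Cardinal MeasureTheory Set Filter Topology
open Pool.Agent.TH773.PSet Pool.Agent.R593.Rnd Pool.Agent.R592.Ent
open scoped ENNReal

variable {I J K : Type} [LinearOrder I]

/-- the properties of the parameters -/
structure Ok (be : I → Cardinal.{0}) (lv : K → I) : Prop where
  ne : Nonempty I
  inf : ∀ i, ℵ₀ ≤ be i
  pow : ∀ i j, i < j → 2 ^ be i ≤ be j
  ctb : ∀ i : I, (Set.Iic i).Countable
  lev : ∀ i, #{x : K // lv x = i} = 2 ^ be i
  lt : ∀ i, 2 ^ be i < #K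
  ex : ∀ μ < #K, ∃ i, μ ≤ be i
  idx : #I ≤ #K

/-- the conditions -/
structure Cn (J : Type) (be : I → Cardinal.{0}) (lv : K → I) : Type where
  dom : Set (J × K)
  small : ∀ i, #{t : J × K // t ∈ dom ∧ lv t.2 ≤ i} ≤ be i
  val : J × K → K
  hlv : ∀ t ∈ dom, lv (val t) = lv t.2

variable {be : I → Cardinal.{0}} {lv : K → I}

/-- A condition is stronger than the conditions which it extends. -/
instance : Preorder (Cn J be lv) where
  le a b := b.dom ⊆ a.dom ∧ ∀ t ∈ b.dom, a.val t = b.val t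
  le_refl a := ⟨subset_rfl, fun _ _ => rfl⟩
  le_trans a b c h h' := ⟨h'.1.trans h.1, fun t ht => (h.2 t (h'.1 ht)).trans (h'.2 t ht)⟩

/-- two conditions agree on the intersection of the domains -/
def Agree (a b : Cn J be lv) : Prop := ∀ t ∈ a.dom, t ∈ b.dom → a.val t = b.val t

/-- two conditions agree on the intersection of the domains with the levels `≤ i` -/
def AgreeLo (i : I) (a b : Cn J be lv) : Prop :=
  ∀ t ∈ a.dom, lv t.2 ≤ i → t ∈ b.dom → a.val t = b.val t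

theorem Agree.symm {a b : Cn J be lv} (h : Agree a b) : Agree b a :=
  fun t h1 h2 => (h t h2 h1).symm

theorem Agree.rfl' {a : Cn J be lv} : Agree a a := fun _ _ _ => rfl

theorem agree_of_le {a b c : Cn J be lv} (h : c ≤ a) (h' : c ≤ b) : Agree a b :=
  fun t h1 h2 => (h.2 t h1).symm.trans (h'.2 t h2)

theorem Agree.of_le {a b c : Cn J be lv} (h : Agree a b) (h' : b ≤ c) : Agree a c :=
  fun t h1 h2 => (h t h1 (h'.1 h2)).trans (h'.2 t h2)

/-- the restriction of a condition -/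
def Cn.res (a : Cn J be lv) (S : Set (J × K)) : Cn J be lv where
  dom := a.dom ∩ S
  small i := (mk_subtype_le_of_subset fun _ h => ⟨h.1.1, h.2⟩).trans (a.small i)
  val := a.val
  hlv t ht := a.hlv t ht.1

theorem le_res (a : Cn J be lv) (S : Set (J × K)) : a ≤ a.res S :=
  ⟨inter_subset_left, fun _ _ => rfl⟩

/-- the common extension of conditions which agree pairwise -/
theorem glue (hO : Ok be lv) {ι : Type} (f : ι → Cn J be lv)
    (hs : ∀ i, #{s : ι // ∃ t ∈ (f s).dom, lv t.2 ≤ i} ≤ be i)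
    (h : ∀ s s', Agree (f s) (f s')) :
    ∃ b : Cn J be lv, (∀ s, b ≤ f s) ∧ ∀ t ∈ b.dom, ∃ s, t ∈ (f s).dom := by
  classical
  let v : J × K → K := fun t => if h : ∃ s, t ∈ (f s).dom then (f h.choose).val t else t.2
  have hv : ∀ s, ∀ t ∈ (f s).dom, v t = (f s).val t := by
    intro s t ht
    have h1 : ∃ s, t ∈ (f s).dom := ⟨s, ht⟩
    simp only [v, dif_pos h1]
    exact h _ _ t h1.choose_spec ht
  have hsm : ∀ i, #{t : J × K // t ∈ (⋃ s, (f s).dom) ∧ lv t.2 ≤ i} ≤ be i := by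
    intro i
    have h1 : {t : J × K | t ∈ (⋃ s, (f s).dom) ∧ lv t.2 ≤ i} ⊆
        ⋃ s : {s : ι // ∃ t ∈ (f s).dom, lv t.2 ≤ i}, {t | t ∈ (f s.1).dom ∧ lv t.2 ≤ i} := by
      rintro t ⟨ht, hti⟩
      obtain ⟨s, hs⟩ := mem_iUnion.1 ht
      exact mem_iUnion.2 ⟨⟨s, t, hs, hti⟩, hs, hti⟩
    refine (mk_le_mk_of_subset h1).trans ((mk_iUnion_le_sum_mk).trans
      ((sum_le_sum _ (fun _ => be i)
        fun s : {s : ι // ∃ t ∈ (f s).dom, lv t.2 ≤ i} => (f s.1).small i).trans ?_))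
    rw [sum_const']
    exact (mul_le_mul' (hs i) le_rfl).trans (mul_eq_self (hO.inf i)).le
  refine ⟨⟨⋃ s, (f s).dom, hsm, v, ?_⟩, fun s => ⟨?_, hv s⟩, ?_⟩
  · intro t ht
    obtain ⟨s, hs⟩ := mem_iUnion.1 ht
    rw [hv s t hs]
    exact (f s).hlv t hs
  · exact subset_iUnion (fun s => (f s).dom) s
  · intro t ht
    exact mem_iUnion.1 ht

theorem glue_ctb (hO : Ok be lv) {ι : Type} [Countable ι] (f : ι → Cn J be lv)
    (h : ∀ s s', Agree (f s) (f s')) :
    ∃ b : Cn J be lv, (∀ s, b ≤ f s) ∧ ∀ t ∈ b.dom, ∃ s, t ∈ (f s).dom :=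
  glue hO f (fun i => (mk_le_aleph0).trans (hO.inf i)) h

theorem glue2 (hO : Ok be lv) {a b : Cn J be lv} (h : Agree a b) :
    ∃ c, c ≤ a ∧ c ≤ b ∧ ∀ t ∈ c.dom, t ∈ a.dom ∨ t ∈ b.dom := by
  obtain ⟨c, hc, hdom⟩ := glue_ctb hO (fun i : Bool => if i then a else b) (by
      intro i j
      cases i <;> cases j
      · exact fun _ _ _ => rfl
      · exact h.symm
      · exact h
      · exact fun _ _ _ => rfl)
  refine ⟨c, hc true, hc false, fun t ht => ?_⟩
  obtain ⟨i, hi⟩ := hdom t ht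
  cases i
  · exact Or.inr hi
  · exact Or.inl hi

/-- the one-point condition -/
def one (hO : Ok be lv) (t : J × K) (w : K) (hw : lv w = lv t.2) : Cn J be lv where
  dom := {t}
  small i := by
    have h1 : #{s : J × K // s ∈ ({t} : Set (J × K)) ∧ lv s.2 ≤ i} ≤ #({t} : Set (J × K)) :=
      mk_subtype_le_of_subset fun _ h => h.1
    refine h1.trans ?_
    rw [mk_singleton]
    exact one_le_aleph0.trans (hO.inf i)
  val _ := w
  hlv s hs := by
    rw [mem_singleton_iff.1 hs]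
    exact hw

theorem exists_ext (hO : Ok be lv) (a : Cn J be lv) (t : J × K) (ht : t ∉ a.dom) (w : K)
    (hw : lv w = lv t.2) : ∃ a', a' ≤ a ∧ t ∈ a'.dom ∧ a'.val t = w := by
  obtain ⟨c, hc, hc', -⟩ := glue2 hO (a := a) (b := one hO t w hw) (by
    intro s h1 h2
    rw [mem_singleton_iff.1 h2] at h1
    exact absurd h1 ht)
  exact ⟨c, hc, hc'.1 (mem_singleton t), hc'.2 t (mem_singleton t)⟩

/-- countable decreasing sequences have lower bounds -/
theorem exists_lower (hO : Ok be lv) (f : ℕ → Cn J be lv) (h : ∀ n, f (n + 1) ≤ f n) :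
    ∃ b, ∀ n, b ≤ f n := by
  have h1 : Antitone f := antitone_nat_of_succ_le h
  obtain ⟨c, hc, -⟩ := glue_ctb hO f (by
    intro i j
    rcases le_total i j with hij | hij
    · exact agree_of_le (h1 hij) le_rfl
    · exact agree_of_le le_rfl (h1 hij))
  exact ⟨c, hc⟩

/-- the weakest condition -/
def emp (J : Type) (be : I → Cardinal.{0}) (lv : K → I) : Cn J be lv where
  dom := ∅
  small i := by
    have : IsEmpty {t : J × K // t ∈ (∅ : Set (J × K)) ∧ lv t.2 ≤ i} := ⟨fun t => t.2.1⟩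
    rw [mk_eq_zero]
    exact zero_le
  val t := t.2
  hlv _ h := h.elim

/-! ### The core lemma -/

section Core

variable {Ω : Type} [MeasurableSpace Ω] {μ : Measure Ω} [IsFiniteMeasure μ]

theorem core (hO : Ok be lv) {Ψ : Set (Cn J be lv × Cond μ)} (hΨ : Down Ψ)
    (hd : ∀ p, ∃ q ≤ p, q ∈ Ψ) (a : Cn J be lv) : ∃ a' ≤ a, ∀ b : Cond μ, ∃ b' ≤ b, (a', b') ∈ Ψ := by
  classical
  let 𝒮 : Set (Set (Cn J be lv × Cond μ)) := {T | (∀ t ∈ T, t ∈ Ψ ∧ t.1 ≤ a) ∧
    ∀ t ∈ T, ∀ t' ∈ T, t ≠ t' → Agree t.1 t'.1 ∧ ¬ ∃ s, s ≤ t.2 ∧ s ≤ t'.2}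
  obtain ⟨T, hT⟩ : ∃ T, Maximal (fun T => T ∈ 𝒮) T := by
    refine zorn_subset 𝒮 fun c hc hchain => ⟨⋃₀ c, ⟨?_, ?_⟩, fun s hs => subset_sUnion_of_mem hs⟩
    · rintro t ⟨s, hs, hts⟩
      exact (hc hs).1 t hts
    · rintro t ⟨s, hs, hts⟩ t' ⟨s', hs', hts'⟩ hne
      rcases hchain.total hs hs' with h | h
      · exact (hc hs').2 t (h hts) t' hts' hne
      · exact (hc hs).2 t hts t' (h hts') hne
  have hTc : Countable T := by
    by_contra hcon
    obtain ⟨x, x', hne, s, hs, hs'⟩ := ccc_cond (fun t : T => t.1.2) hcon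
    exact (hT.prop.2 x.1 x.2 x'.1 x'.2 fun h => hne (Subtype.ext h)).2 ⟨s, hs, hs'⟩
  let f : Option T → Cn J be lv := fun t => t.elim a fun t => t.1.1
  obtain ⟨a', ha', -⟩ := glue_ctb hO f (by
    rintro (_ | t) (_ | t')
    · exact fun _ _ _ => rfl
    · exact agree_of_le (hT.prop.1 t'.1 t'.2).2 le_rfl
    · exact agree_of_le le_rfl (hT.prop.1 t.1 t.2).2
    · by_cases h : t = t'
      · rw [h]
        exact fun _ _ _ => rfl
      · exact (hT.prop.2 t.1 t.2 t'.1 t'.2 fun h' => h (Subtype.ext h')).1)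
  have haa : a' ≤ a := ha' none
  have hat : ∀ t ∈ T, a' ≤ t.1 := fun t ht => ha' (some ⟨t, ht⟩)
  refine ⟨a', haa, fun b => ?_⟩
  obtain ⟨⟨a2, b2⟩, hle, hmem⟩ := hd (a', b)
  by_cases hex : ∃ t ∈ T, ∃ s, s ≤ b2 ∧ s ≤ t.2
  · obtain ⟨t, ht, s, hs, hs'⟩ := hex
    exact ⟨s, hs.trans hle.2, hΨ t (hT.prop.1 t ht).1 _ ⟨hat t ht, hs'⟩⟩
  · exfalso
    push Not at hex
    have hin : insert (a2, b2) T ∈ 𝒮 := by
      constructor
      · rintro t (rfl | ht)
        · exact ⟨hmem, hle.1.trans haa⟩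
        · exact hT.prop.1 t ht
      · rintro t (rfl | ht) t' (rfl | ht') hne
        · exact absurd rfl hne
        · refine ⟨agree_of_le le_rfl (hle.1.trans (hat t' ht')), ?_⟩
          rintro ⟨s, hs, hs'⟩
          exact hex t' ht' s hs hs'
        · refine ⟨agree_of_le (hle.1.trans (hat t ht)) le_rfl, ?_⟩
          rintro ⟨s, hs, hs'⟩
          exact hex t ht s hs' hs
        · exact hT.prop.2 t ht t' ht' hne
    have h1 : (a2, b2) ∈ T := hT.le_of_ge hin (subset_insert _ _) (mem_insert _ _)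
    exact hex _ h1 b2 le_rfl le_rfl

/-- the section of a statement -/
theorem exists_section {φ : Set (Cn J be lv × Cond μ)} (hφ : Reg φ) (a : Cn J be lv) :
    ∃ E : Set Ω, MeasurableSet E ∧ ∀ b, (a, b) ∈ φ ↔ b ∈ AE μ E := by
  obtain ⟨E, hE, h⟩ := exists_rep1 {b : Cond μ | (a, b) ∈ φ}
  refine ⟨E, hE, fun b => ?_⟩
  rw [← h]
  constructor
  · intro hb q hq
    exact ⟨q, le_rfl, b, hb, hq⟩
  · intro hb
    refine hφ.2 _ fun ⟨a1, b1⟩ hle => ?_
    obtain ⟨r, hr, s, hs, hrs⟩ := hb b1 hle.2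
    exact ⟨(a1, r), ⟨le_rfl, hr⟩, hφ.1 _ hs _ ⟨hle.1, hrs⟩⟩

theorem decide1 (hO : Ok be lv) {φ : Set (Cn J be lv × Cond μ)} (hφ : Reg φ) (a : Cn J be lv) :
    ∃ a' ≤ a, ∃ E : Set Ω, MeasurableSet E ∧ ∀ a'' ≤ a', ∀ b, ((a'', b) ∈ φ ↔ b ∈ AE μ E) := by
  obtain ⟨a', ha', h⟩ := core hO (Ψ := φ ∪ fnot φ) (by
    rintro p (hp | hp) q hq
    · exact Or.inl (hφ.1 p hp q hq)
    · exact Or.inr (down_fnot _ p hp q hq)) (by
    intro p
    by_cases hp : ∃ q ≤ p, q ∈ φ
    · obtain ⟨q, hq, hq'⟩ := hp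
      exact ⟨q, hq, Or.inl hq'⟩
    · push Not at hp
      exact ⟨p, le_rfl, Or.inr hp⟩) a
  obtain ⟨E, hE, h'⟩ := exists_section hφ a'
  refine ⟨a', ha', E, hE, fun a'' ha'' b => ⟨fun hb => ?_, fun hb => ?_⟩⟩
  · rw [mem_AE]
    by_contra hne
    have hne' : μ (b.1 ∩ Eᶜ) ≠ 0 := hne
    obtain ⟨b', hb', hb2⟩ := h (restr b Eᶜ hE.compl hne')
    rcases hb2 with hb2 | hb2
    · exact not_AE_compl ((h' _).1 hb2) (down_AE _ _ (restr_mem b Eᶜ hE.compl hne') _ hb')
    · exact hb2 (a'', b') ⟨ha'', le_rfl⟩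
        (hφ.1 _ hb _ ⟨le_rfl, hb'.trans (restr_le _ _ _ _)⟩)
  · exact hφ.1 _ ((h' b).2 hb) _ ⟨ha'', le_rfl⟩

theorem decide_seq (hO : Ok be lv) {φ : ℕ → Set (Cn J be lv × Cond μ)} (hφ : ∀ n, Reg (φ n))
    (a : Cn J be lv) :
    ∃ a' ≤ a, ∃ E : ℕ → Set Ω, ∀ n, MeasurableSet (E n) ∧
      ∀ a'' ≤ a', ∀ b, ((a'', b) ∈ φ n ↔ b ∈ AE μ (E n)) := by
  choose g hg E hE hE' using fun (n : ℕ) (a : Cn J be lv) => decide1 hO (hφ n) a
  let f : ℕ → Cn J be lv := fun n => Nat.rec (g 0 a) (fun n c => g (n + 1) c) n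
  have hf : ∀ n, f (n + 1) ≤ f n := fun n => hg (n + 1) (f n)
  obtain ⟨a', ha'⟩ := exists_lower hO f hf
  refine ⟨a', (ha' 0).trans (hg 0 a), fun n => if n = 0 then E 0 a else E n (f (n - 1)),
    fun n => ?_⟩
  cases n with
  | zero =>
    simp only [if_true]
    exact ⟨hE 0 a, fun a'' ha'' b => hE' 0 a a'' (ha''.trans (ha' 0)) b⟩
  | succ n =>
    simp only [Nat.succ_ne_zero, if_false, Nat.add_sub_cancel]
    exact ⟨hE (n + 1) (f n), fun a'' ha'' b => hE' (n + 1) (f n) a'' (ha''.trans (ha' (n + 1))) b⟩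

end Core

/-! ### Closures -/

section Closure

/-- the arities of the constructors -/
abbrev Ar (C L M : Type) (a : Option C × M) : Type := a.1.elim Empty fun _ => L

theorem mk_code {C L M : Type} (hM : ℵ₀ ≤ #M) (hC : #C ≤ #M) (hL : #M ^ #L ≤ #M) :
    #(WType (Ar C L M)) ≤ #M := by
  refine WType.cardinalMk_le_of_le' ?_
  refine (sum_le_sum _ (fun _ => #M) fun a => ?_).trans ?_
  · rcases a with ⟨_ | c, k⟩
    · show #M ^ lift.{0} #Empty ≤ #M
      rw [mk_empty, lift_zero, power_zero]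
      exact one_le_aleph0.trans hM
    · show #M ^ lift.{0} #L ≤ #M
      rw [lift_id]
      exact hL
  · rw [sum_const', mk_prod, lift_id, lift_id, mk_option]
    have h1 : #C + 1 ≤ #M :=
      (add_le_add hC (one_le_aleph0.trans hM)).trans (add_eq_self hM).le
    calc (#C + 1) * #M * #M ≤ #M * #M * #M := mul_le_mul' (mul_le_mul' h1 le_rfl) le_rfl
      _ = #M := by rw [mul_eq_self hM, mul_eq_self hM]

/-- a small set which is closed under an operation with many places -/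
theorem exists_closed {X C L M : Type} (hM : ℵ₀ ≤ #M) (hC : #C ≤ #M) (hL : #M ^ #L ≤ #M)
    (g : C → (L → X) → M → X) (x0 : X) :
    ∃ A : Set X, x0 ∈ A ∧ #A ≤ #M ∧ ∀ c s, (∀ l, s l ∈ A) → ∀ m, g c s m ∈ A := by
  classical
  let val : WType (Ar C L M) → X := fun t => WType.elim X
    (fun x : Σ a : Option C × M, (Ar C L M a → X) =>
      match x with
      | ⟨(none, _), _⟩ => x0
      | ⟨(some c, m), s⟩ => g c s m) t
  refine ⟨range val, ?_, mk_range_le.trans (mk_code hM hC hL), fun c s hs m => ?_⟩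
  · obtain ⟨m⟩ : Nonempty M := by
      rw [← mk_ne_zero_iff]
      exact (aleph0_pos.trans_le hM).ne'
    exact ⟨WType.mk (none, m) Empty.elim, rfl⟩
  · choose f hf using hs
    refine ⟨WType.mk (some c, m) f, ?_⟩
    show g c (fun l => val (f l)) m = g c s m
    rw [show (fun l => val (f l)) = s from funext hf]

end Closure

end Pool.Agent.Helper75.HD
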