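import Pool.Agent.Helper75.HD.Cap

/-!
# Higher dominating numbers `𝔡^𝔠_θ` for all `θ` in a forcing extension
-/

set_option autoImplicit false
set_option linter.unusedSectionVars false

namespace Pool.Agent.Helper75.HD

open Cardinal MeasureTheory Set Filter Topology
open Pool.Agent.TH773.PSet Pool.Agent.R593.Rnd Pool.Agent.R592.Ent
open Pool.Agent.R592.Hd (EvDiff BLe DLe StaysCardinal rn rn_eq dep_rn measurable_rn measure_rn
  disjoint_rn)
open scoped ENNReal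

universe u v w

section Sentences

variable {P : Type u} [Preorder P]

/-- The functions from `X` to `Z` named by `f` and `g` satisfy `f ≤* g`: for some `μ < |Z|` there
is a function `S` from `μ` to `X` such that each `α` with `f α > g α` is a value of `S`. -/
def AlmLe {X Z : Type v} [LT Z] (f g : X → Z → Set P) : Set P :=
  fex fun μ : Cardinal.{v} => fex fun _ : μ < #Z => fex fun S : μ.out → X → Set P =>
    fand (IsFun S) (fall fun α : X => fall fun β : Z => fall fun γ : Z => fall fun _ : γ < β =>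
      fimp (fand (meets (f α β)) (meets (g α γ))) (fex fun i => meets (S i α)))

variable (P) in
/-- There is a family, indexed by `Y`, of functions from `X` to `Z` such that every function from
`X` to `Z` satisfies `f ≤* g` for some member `g` of the family. -/
def DomLe (X Z Y : Type v) [LT Z] : Set P :=
  fex fun D : Y → X → Z → Set P => fand (fall fun y => IsFun (D y))
    (fall fun f : X → Z → Set P => fimp (IsFun f) (fex fun y => AlmLe f (D y)))

variable (P) in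
/-- Let `K` be the set of the ordinals smaller than `κ`. The ordinal `κ` is a cardinal, the
continuum is at most `κ`, `𝔟(≠*)` is not smaller than `κ`, the number `𝔡(≠*_{∅})` (for functions
defined on `K`) is at most `ν`, and for every infinite cardinal `θ ≤ κ` the number `𝔡^κ_θ` is not
at most `ν` (each cardinal of the extension is a cardinal of the ground model which stays a
cardinal). -/
def Model (κ ν : Cardinal.{v}) : Set P :=
  fand (StaysCardinal P κ.ord.ToType)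
    (fand (ContinuumLe P κ.ord.ToType)
      (fand (fall fun μ : Cardinal.{v} => fall fun _ : μ < κ => fnot (BLe P μ.out))
        (fand (DLe P κ.ord.ToType ν.out)
          (fall fun θ : Cardinal.{v} => fall fun _ : ℵ₀ ≤ θ => fall fun _ : θ ≤ κ =>
            fimp (StaysCardinal P θ.ord.ToType)
              (fnot (DomLe P κ.ord.ToType θ.ord.ToType ν.out))))))

end Sentences

section Product

variable {I J K : Type} [LinearOrder I] {be : I → Cardinal.{0}} {lv : K → I}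

variable (J be lv) in
/-- the conditions whose second coordinate is almost included in `E` -/
def lft (E : Set (K × ℕ → Bool)) : Set (Cn J be lv × Random K) :=
  {p | p.2 ∈ AE (coinProduct K) E}

theorem meets_lft {E : Set (K × ℕ → Bool)} (hE : MeasurableSet E) :
    meets (lft J be lv E) = lft J be lv E := by
  ext p
  constructor
  · intro h
    show p.2 ∈ AE (coinProduct K) E
    rw [mem_AE]
    by_contra hne
    have hne' : coinProduct K (p.2.1 ∩ Eᶜ) ≠ 0 := hne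
    obtain ⟨r, hr, s, hs, hrs⟩ := h (p.1, restr p.2 Eᶜ hE.compl hne')
      ⟨le_rfl, restr_le p.2 Eᶜ hE.compl hne'⟩
    exact not_AE_compl (down_AE _ _ hs _ hrs.2)
      (down_AE _ _ (restr_mem p.2 Eᶜ hE.compl hne') _ hr.2)
  · intro h q hq
    exact ⟨q, le_rfl, p, h, hq⟩

variable (J be lv) in
/-- the name of the `i`-th random function -/
def RF (i : K) (n k : ℕ) : Set (Cn J be lv × Random K) := lft J be lv (rn i n k)

theorem isFun_RF (i : K) (p : Cn J be lv × Random K) : p ∈ IsFun (RF J be lv i) := by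
  refine ⟨fun n => mem_fex.2 fun q _ => ?_, fun n k k' hne q _ hq => ?_⟩
  · have h1 : q.2 ∈ AE (coinProduct K) (⋃ k, rn i n k) := by
      have : (⋃ k, rn i n k) = Set.univ := eq_univ_of_forall fun x => mem_iUnion.2 ⟨_, rfl⟩
      rw [this, mem_AE]
      simp
    obtain ⟨k, hk⟩ := exists_pos h1
    refine ⟨(q.1, restr q.2 _ (measurable_rn i n k) hk),
      ⟨le_rfl, restr_le q.2 _ (measurable_rn i n k) hk⟩, k, ?_⟩
    show _ ∈ meets (lft J be lv (rn i n k))
    rw [meets_lft (measurable_rn i n k)]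
    exact restr_mem q.2 _ (measurable_rn i n k) hk
  · obtain ⟨h1, h2⟩ := hq
    change q ∈ meets (lft J be lv (rn i n k)) at h1
    change q ∈ meets (lft J be lv (rn i n k')) at h2
    rw [meets_lft (measurable_rn i n _)] at h1 h2
    have h1' : q.2 ∈ AE (coinProduct K) (rn i n k) := h1
    have h2' : q.2 ∈ AE (coinProduct K) (rn i n k') := h2
    rw [mem_AE_iff] at h1' h2'
    apply q.2.2.2
    refine measure_eq_zero_iff_ae_notMem.2 ?_
    filter_upwards [h1', h2'] with x h3 h4 h5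
    exact hne (disjoint_rn (h3 h5) (h4 h5))

/-- below `c` the sequence `φ` of statements has its support in `A` -/
def Cap (φ : ℕ → Set (Cn J be lv × Random K)) (c : Cn J be lv) (A : Set K) : Prop :=
  ∀ a ≤ c, ∃ a' ≤ a, ∃ T : Set (K × ℕ), (∀ t ∈ T, t.1 ∈ A) ∧
    ∃ E : ℕ → Set (K × ℕ → Bool), ∀ n, Dep T (E n) ∧
      ∀ a'' ≤ a', ∀ b : Random K, ((a'', b) ∈ φ n ↔ b ∈ AE (coinProduct K) (E n))

theorem exists_cap (hO : Ok be lv) [Nonempty J] {M : Type} (l : M → I)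
    (hl : ∀ i, #{m : M // l m = i} ≤ 2 ^ be i) (φ : M → ℕ → Set (Cn J be lv × Random K))
    (hφ : ∀ m n, Reg (φ m n)) (c0 : Cn J be lv) :
    ∃ c ≤ c0, ∀ m, ∃ A : Set K, #A ≤ 2 ^ be (l m) ∧ Cap (φ m) c A := by
  obtain ⟨c, hc, h⟩ := capture hO l hl (D := fun m => {a' : Cn J be lv |
      ∃ E : ℕ → Set (K × ℕ → Bool), ∀ n, MeasurableSet (E n) ∧
        ∀ a'' ≤ a', ∀ b : Random K, ((a'', b) ∈ φ m n ↔ b ∈ AE (coinProduct K) (E n))})
    (fun m a => decide_seq hO (hφ m) a) c0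
  refine ⟨c, hc, fun m => ?_⟩
  obtain ⟨S, hS, hSD, hSc⟩ := h m
  choose E hE using fun d : S => hSD d.1 d.2
  choose T hT hT' using fun (d : S) n => exists_countable (hE d n).1
  let TT : S → Set (K × ℕ) := fun d => ⋃ n, T d n
  have hTT : ∀ d, (TT d).Countable := fun d => countable_iUnion fun n => hT d n
  refine ⟨⋃ d, Prod.fst '' TT d, ?_, fun a ha => ?_⟩
  · refine (mk_iUnion_le_sum_mk).trans ((sum_le_sum _ (fun _ => ℵ₀) fun d => ?_).trans ?_)
    · exact ((hTT d).image _).le_aleph0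
    · rw [sum_const']
      calc #S * ℵ₀ ≤ 2 ^ be (l m) * 2 ^ be (l m) := mul_le_mul' hS (two_pow_inf hO _)
        _ = _ := mul_eq_self (two_pow_inf hO _)
  · obtain ⟨d, hd, had⟩ := hSc a ha
    obtain ⟨a', ha1, ha2, -⟩ := glue2 hO had
    refine ⟨a', ha1, TT ⟨d, hd⟩, fun t ht => mem_iUnion.2 ⟨⟨d, hd⟩, t, ht, rfl⟩, E ⟨d, hd⟩,
      fun n => ⟨?_, ?_⟩⟩
    · exact (hT' ⟨d, hd⟩ n).mono (subset_iUnion (T ⟨d, hd⟩) n)
    · exact fun a'' ha'' b => (hE ⟨d, hd⟩ n).2 a'' (ha''.trans ha2) b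

/-- the sequence of the values of a name of a function from `ω` to `ω` -/
def seqOf (X : ℕ → ℕ → Set (Cn J be lv × Random K)) (n : ℕ) : Set (Cn J be lv × Random K) :=
  meets (X n.unpair.1 n.unpair.2)

theorem evDiff {X : ℕ → ℕ → Set (Cn J be lv × Random K)} {c : Cn J be lv} {A : Set K}
    (hA : Cap (seqOf X) c A) {γ : K} (hγ : γ ∉ A) {p : Cn J be lv × Random K} (hpc : p.1 ≤ c)
    (hp : p ∈ IsFun X) : p ∈ EvDiff X (RF J be lv γ) := by
  refine mem_fex.2 fun q hq => ?_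
  obtain ⟨a', ha', T, hT, E, hE⟩ := hA q.1 (hq.1.trans hpc)
  let F : ℕ → ℕ → Set (K × ℕ → Bool) := fun n k => E (Nat.pair n k)
  have hFd : ∀ n k, Dep T (F n k) := fun n k => (hE _).1
  have hF : ∀ n k, ∀ a'' ≤ a', ∀ b : Random K,
      ((a'', b) ∈ meets (X n k) ↔ b ∈ AE (coinProduct K) (F n k)) := by
    intro n k a'' ha'' b
    have := (hE (Nat.pair n k)).2 a'' ha'' b
    simpa [seqOf] using this
  have hq' : (a', q.2) ≤ q := ⟨ha', le_rfl⟩
  have hfun : (a', q.2) ∈ IsFun X := (reg_isFun X).1 p hp _ (hq'.trans hq)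
  -- the values are unique
  have huniq : ∀ n k k', k ≠ k' → ∀ᵐ x ∂(coinProduct K), x ∈ q.2.1 →
      ¬ (x ∈ F n k ∧ x ∈ F n k') := by
    intro n k k' hne
    have hm : MeasurableSet (F n k ∩ F n k') := (hFd n k).meas.inter (hFd n k').meas
    by_contra hcon
    have hpos : coinProduct K (q.2.1 ∩ (F n k ∩ F n k')) ≠ 0 := by
      intro h0
      apply hcon
      filter_upwards [measure_eq_zero_iff_ae_notMem.1 h0] with x hx h1 h2
      exact hx ⟨h1, h2⟩
    have h2 : restr q.2 _ hm hpos ∈ AE (coinProduct K) (F n k ∩ F n k') := restr_mem _ _ _ _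
    rw [← fand_AE] at h2
    exact hfun.2 n k k' hne (a', restr q.2 _ hm hpos) ⟨le_rfl, restr_le q.2 _ hm hpos⟩
      ⟨(hF n k a' le_rfl _).2 h2.1, (hF n k' a' le_rfl _).2 h2.2⟩
  let F' : ℕ → ℕ → Set (K × ℕ → Bool) := fun n k => F n k ∩ ⋂ k' : ℕ, ⋂ _ : k' ≠ k, (F n k')ᶜ
  have hF'd : ∀ n k, Dep T (F' n k) := fun n k =>
    (hFd n k).inter (Dep.iInter fun k' => Dep.iInter fun _ => (hFd n k').compl)
  let G : ℕ → Set (K × ℕ → Bool) := fun n => ⋃ k, F' n k ∩ rn γ n k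
  have hGm : ∀ n, MeasurableSet (G n) := fun n =>
    MeasurableSet.iUnion fun k => (hF'd n k).meas.inter (measurable_rn γ n k)
  have hdisjT : Disjoint T {t : K × ℕ | t.1 = γ} :=
    Set.disjoint_left.2 fun t h1 h2 => hγ (h2 ▸ hT t h1)
  have hG : ∀ n, coinProduct K (G n) ≤ (2 : ENNReal)⁻¹ ^ n := by
    intro n
    calc coinProduct K (G n) ≤ ∑' k, coinProduct K (F' n k ∩ rn γ n k) := measure_iUnion_le _
      _ ≤ ∑' k, coinProduct K (F' n k) * (2 : ENNReal)⁻¹ ^ n := by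
        refine ENNReal.tsum_le_tsum fun k => ?_
        rw [dep_indep hdisjT (hF'd n k) (dep_rn γ n k)]
        exact mul_le_mul_right (measure_rn γ n k) _
      _ = (∑' k, coinProduct K (F' n k)) * (2 : ENNReal)⁻¹ ^ n := ENNReal.tsum_mul_right
      _ = coinProduct K (⋃ k, F' n k) * (2 : ENNReal)⁻¹ ^ n := by
        rw [measure_iUnion (fun k k' hne => ?_) fun k => (hF'd n k).meas]
        refine Set.disjoint_left.2 fun x hx hx' => ?_
        exact mem_iInter₂.1 hx.2 k' (Ne.symm hne) hx'.1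
      _ ≤ 1 * (2 : ENNReal)⁻¹ ^ n := mul_le_mul' prob_le_one le_rfl
      _ = _ := one_mul _
  let H : ℕ → Set (K × ℕ → Bool) := fun N => ⋂ n : ℕ, ⋂ _ : N ≤ n, (G n)ᶜ
  have hHm : ∀ N, MeasurableSet (H N) := fun N =>
    MeasurableSet.iInter fun n => MeasurableSet.iInter fun _ => (hGm n).compl
  have h3 : ∑' n, coinProduct K (G n) ≠ ⊤ :=
    ne_top_of_le_ne_top tsum_two (ENNReal.tsum_le_tsum hG)
  have h4 : q.2 ∈ AE (coinProduct K) (⋃ N, H N) := by
    rw [mem_AE_iff]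
    filter_upwards [ae_eventually_notMem h3] with x hx _
    obtain ⟨N, hN⟩ := eventually_atTop.1 hx
    exact mem_iUnion.2 ⟨N, mem_iInter₂.2 fun n hn => hN n hn⟩
  obtain ⟨N, hN⟩ := exists_pos h4
  refine ⟨(a', restr q.2 _ (hHm N) hN), ⟨ha', restr_le q.2 _ (hHm N) hN⟩, N,
    fun n hn k s hs hsm => ?_⟩
  obtain ⟨h5, h6⟩ := hsm
  have h5' : s.2 ∈ AE (coinProduct K) (F n k) := (hF n k s.1 hs.1 s.2).1 h5
  change s ∈ meets (lft J be lv (rn γ n k)) at h6
  rw [meets_lft (measurable_rn γ n k)] at h6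
  have h6' : s.2 ∈ AE (coinProduct K) (rn γ n k) := h6
  have h7 : s.2 ∈ AE (coinProduct K) (H N) :=
    down_AE _ _ (restr_mem q.2 _ (hHm N) hN) _ hs.2
  have h8 : s.2 ∈ AE (coinProduct K) q.2.1 :=
    le_iff_AE.1 (hs.2.trans (restr_le q.2 _ (hHm N) hN))
  rw [mem_AE_iff] at h5' h6' h7 h8
  apply s.2.2.2
  refine measure_eq_zero_iff_ae_notMem.2 ?_
  have h9 : ∀ᵐ x ∂(coinProduct K), ∀ k', k ≠ k' → x ∈ q.2.1 → ¬ (x ∈ F n k ∧ x ∈ F n k') := by
    rw [ae_all_iff]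
    intro k'
    by_cases hne : k = k'
    · exact ae_of_all _ fun x h => absurd hne h
    · filter_upwards [huniq n k k' hne] with x hx _
      exact hx
  filter_upwards [h5', h6', h7, h8, h9] with x g5 g6 g7 g8 g9 hx
  refine mem_iInter₂.1 (g7 hx) n hn (mem_iUnion.2 ⟨k, ⟨g5 hx, ?_⟩, g6 hx⟩)
  exact mem_iInter₂.2 fun k' hk' h10 => g9 k' (Ne.symm hk') (g8 hx) ⟨g5 hx, h10⟩

theorem continuumLe (hO : Ok be lv) (hpow : #K ^ ℵ₀ = #K) {Y : Type} (hY : #Y = #K)
    (p : Cn J be lv × Random K) : p ∈ ContinuumLe (Cn J be lv × Random K) Y := by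
  classical
  have h1 : #(ℕ → {A : Set (K × ℕ → Bool) // MeasurableSet A}) ≤ #Y := by
    rw [hY, mk_arrow, lift_id, lift_id, mk_nat]
    exact (power_le_power_right (mk_measurable (inf_K hO) hpow)).trans hpow.le
  obtain ⟨e⟩ := h1
  have hne : Nonempty (ℕ → {A : Set (K × ℕ → Bool) // MeasurableSet A}) :=
    ⟨fun _ => ⟨∅, MeasurableSet.empty⟩⟩
  let g : Y → ℕ → {A : Set (K × ℕ → Bool) // MeasurableSet A} := Function.invFun e
  have hg : Function.Surjective g := Function.invFun_surjective e.injective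
  refine mem_fex_of (fun y n => lft J be lv (g y n).1) fun q _ X => mem_fex.2 fun r _ => ?_
  obtain ⟨a', ha', E, hE⟩ := decide_seq hO (φ := fun n => meets (X n)) (fun n => reg_meets _) r.1
  obtain ⟨y, hy⟩ := hg fun n => ⟨E n, (hE n).1⟩
  refine ⟨(a', r.2), ⟨ha', le_rfl⟩, y, same_of fun s hs n => ?_⟩
  rw [meets_lft (g y n).2, hy]
  exact (hE n).2 s.1 hs.1 s.2

/-! ### The numbers for `≠*` -/

lemma const_level (hO : Ok be lv) {M : Type} {i0 : I} (hM : #M ≤ 2 ^ be i0) (i : I) :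
    #{m : M // (fun _ : M => i0) m = i} ≤ 2 ^ be i := by
  by_cases h : i0 = i
  · rw [← h]
    exact (mk_subtype_le _).trans hM
  · have : IsEmpty {m : M // (fun _ : M => i0) m = i} := ⟨fun m => h m.2⟩
    rw [mk_eq_zero]
    exact zero_le

theorem not_bLe (hO : Ok be lv) [Nonempty J] {M : Type} (hM : #M < #K)
    (p : Cn J be lv × Random K) : p ∈ fnot (BLe (Cn J be lv × Random K) M) := by
  intro q _ hq
  obtain ⟨r, _, D, hD1, hD2⟩ := mem_fex.1 hq q le_rfl
  obtain ⟨i, hi⟩ := hO.ex _ hM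
  have hi' : #M ≤ 2 ^ be i := hi.trans (cantor _).le
  obtain ⟨c, hc, h⟩ := exists_cap hO (fun _ : M => i) (const_level hO hi')
    (fun m => seqOf (D m)) (fun m n => reg_meets _) r.1
  choose A hA hA' using h
  obtain ⟨γ, hγ⟩ : ∃ γ, γ ∉ ⋃ m, A m := by
    by_contra hcon
    push Not at hcon
    have h1 : #K ≤ #(⋃ m, A m) := by
      rw [eq_univ_of_forall hcon, mk_univ]
    have h2 : #(⋃ m, A m) ≤ #M * 2 ^ be i := by
      refine (mk_iUnion_le_sum_mk).trans ((sum_le_sum _ (fun _ => 2 ^ be i) fun m => hA m).trans ?_)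
      rw [sum_const']
    exact absurd (h1.trans h2) (not_le.2 (mul_lt_of_lt (inf_K hO) hM (hO.lt i)))
  have hle : ((c, r.2) : Cn J be lv × Random K) ≤ r := ⟨hc, le_rfl⟩
  refine hD2 (c, r.2) hle (mem_fex_of (RF J be lv γ) fun s hs => ⟨isFun_RF γ s, fun m => ?_⟩)
  exact evDiff (hA' m) (fun h => hγ (mem_iUnion.2 ⟨m, h⟩)) hs.1
    ((reg_isFun _).1 r (hD1 m) s (hs.trans hle))

theorem dLe (hO : Ok be lv) [Nonempty J] {Y : Type} (hY : #Y = #(K → K))
    (p : Cn J be lv × Random K) : p ∈ DLe (Cn J be lv × Random K) K Y := by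
  obtain ⟨e⟩ := Cardinal.eq.1 hY
  refine mem_fex_of (fun y x => RF J be lv (e y x)) fun q _ =>
    ⟨fun y x => isFun_RF _ q, fun f => mem_fimp.2 fun r _ hr => ?_⟩
  obtain ⟨c, hc, h⟩ := exists_cap hO lv (fun i => (hO.lev i).le)
    (fun x => seqOf (f x)) (fun m n => reg_meets _) r.1
  choose A hA hA' using h
  have h1 : ∀ x, ∃ γ, γ ∉ A x := by
    intro x
    by_contra hcon
    push Not at hcon
    have h1 : #K ≤ #(A x) := by
      rw [eq_univ_of_forall hcon, mk_univ]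
    exact absurd (h1.trans (hA x)) (not_le.2 (hO.lt _))
  choose γ hγ using h1
  have hle : ((c, r.2) : Cn J be lv × Random K) ≤ r := ⟨hc, le_rfl⟩
  refine ⟨(c, r.2), hle, mem_fex_of (e.symm γ) fun s hs x => ?_⟩
  show s ∈ EvDiff (f x) (RF J be lv (e (e.symm γ) x))
  rw [Equiv.apply_symm_apply]
  exact evDiff (hA' x) (hγ x) hs.1 ((reg_isFun _).1 r (hr x) s (hs.trans hle))

/-! ### Functions from `K` to `Z` -/

theorem values (hO : Ok be lv) [Nonempty J] {M Z : Type} {S : M → Z → Set (Cn J be lv × Random K)}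
    {r : Cn J be lv × Random K} (hr : r ∈ IsFun S) {i : I} (hM : #M ≤ 2 ^ be i) :
    ∃ c ≤ r.1, ∃ C : Set Z, #C ≤ 2 ^ be i ∧
      ∀ m β, ∀ q ≤ r, q.1 ≤ c → q ∈ meets (S m β) → β ∈ C := by
  obtain ⟨c, hc, h⟩ := capture hO (fun _ : M => i) (const_level hO hM)
    (D := fun m => {a' : Cn J be lv | ∀ b : Random K, ∃ b' ≤ b,
      (a', b') ∈ {p : Cn J be lv × Random K | (∃ β, p ∈ meets (S m β)) ∨ ∀ s, s ≤ p → ¬ s ≤ r}})
    (fun m a => core hO (by
      rintro p (⟨β, hβ⟩ | hp) q hq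
      · exact Or.inl ⟨β, (reg_meets _).1 _ hβ _ hq⟩
      · exact Or.inr fun s hs => hp s (hs.trans hq)) (by
      intro p
      by_cases hp : ∃ s, s ≤ p ∧ s ≤ r
      · obtain ⟨s, hs, hs'⟩ := hp
        obtain ⟨t, ht, β, hβ⟩ := isFun_total ((reg_isFun _).1 r hr s hs') m
        exact ⟨t, ht.trans hs, Or.inl ⟨β, hβ⟩⟩
      · push Not at hp
        exact ⟨p, le_rfl, Or.inr hp⟩) a) r.1
  choose T hT hTD hTc using h
  let V : (Σ m, T m) → Set Z := fun x =>
    {β | Agree x.2.1 r.1 ∧ ∃ b ≤ r.2, (x.2.1, b) ∈ meets (S x.1 β)}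
  have hV : ∀ x, (V x).Countable := by
    intro x
    by_contra hcon
    choose g hg hg' using fun β : V x => β.2.2
    have hag : Agree x.2.1 r.1 := by
      by_contra hne
      exact hcon (by
        have : V x = ∅ := eq_empty_of_forall_notMem fun β hβ => hne hβ.1
        rw [this]
        exact countable_empty)
    obtain ⟨e, he, he', -⟩ := glue2 hO hag
    obtain ⟨β, β', hne, s, hs, hs'⟩ := ccc_cond g hcon
    apply hne
    apply Subtype.ext
    have h1 : ((e, s) : Cn J be lv × Random K) ≤ r := ⟨he', hs.trans (hg β)⟩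
    exact isFun_unique ((reg_isFun S).1 r hr _ h1)
      ((reg_meets _).1 _ (hg' β) (e, s) ⟨he, hs⟩) ((reg_meets _).1 _ (hg' β') (e, s) ⟨he, hs'⟩)
  refine ⟨c, hc, ⋃ x, V x, ?_, fun m β q hq hqc hqm => ?_⟩
  · refine (mk_iUnion_le_sum_mk).trans ((sum_le_sum _ (fun _ => ℵ₀) fun x => ?_).trans ?_)
    · exact (hV x).le_aleph0
    · rw [sum_const', mk_sigma]
      have h1 : (Cardinal.sum fun m => #(T m)) ≤ 2 ^ be i := by
        refine (sum_le_sum _ (fun _ => 2 ^ be i) fun m => hT m).trans ?_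
        rw [sum_const']
        exact (mul_le_mul' hM le_rfl).trans (mul_eq_self (two_pow_inf hO i)).le
      exact (mul_le_mul' h1 (two_pow_inf hO i)).trans (mul_eq_self (two_pow_inf hO i)).le
  · obtain ⟨d, hd, hqd⟩ := hTc m q.1 hqc
    obtain ⟨e, he, he', -⟩ := glue2 hO hqd
    obtain ⟨b', hb', hdec⟩ := hTD m d hd q.2
    have hle : ((e, b') : Cn J be lv × Random K) ≤ q := ⟨he, hb'⟩
    rcases hdec with ⟨β', hβ'⟩ | hdec
    · have h1 : β = β' := isFun_unique ((reg_isFun S).1 r hr _ (hle.trans hq))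
        ((reg_meets _).1 _ hqm _ hle) ((reg_meets _).1 _ hβ' (e, b') ⟨he', le_rfl⟩)
      refine mem_iUnion.2 ⟨⟨m, ⟨d, hd⟩⟩, agree_of_le he' (he.trans hq.1), b', hb'.trans hq.2, ?_⟩
      rw [h1]
      exact hβ'
    · exact absurd (hle.trans hq) (hdec (e, b') ⟨he', le_rfl⟩)

theorem staysCardinal (hO : Ok be lv) [Nonempty J] (p : Cn J be lv × Random K) :
    p ∈ StaysCardinal (Cn J be lv × Random K) K := by
  intro μ hμ q _ hq
  obtain ⟨r, _, R, hR1, hR2⟩ := mem_fex.1 hq q le_rfl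
  obtain ⟨i, hi⟩ := hO.ex _ hμ
  obtain ⟨c, hc, C, hC, hC'⟩ := values hO hR1 (i := i) (by
    rw [mk_out]
    exact hi.trans (cantor _).le)
  have hle : ((c, r.2) : Cn J be lv × Random K) ≤ r := ⟨hc, le_rfl⟩
  have h1 : ∀ β, β ∈ C := by
    intro β
    obtain ⟨s, hs, m, hm⟩ := mem_fex.1 (hR2 β) (c, r.2) hle
    exact hC' m β s (hs.trans hle) hs.1 hm
  have h2 : #K ≤ #C := by
    rw [eq_univ_of_forall h1, mk_univ]
  exact absurd (h2.trans hC) (not_le.2 (hO.lt i))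

theorem not_domLe (hO : Ok be lv) [Nonempty J] {Z : Type} [LT Z] (hZ : #Z ≤ #K)
    (blk : K → K) (hblk : ∀ w, #{α // blk α = w} = #K) (i0 : I) (c : K → Z)
    (hc : ∀ β, ∃ w, lv w = i0 ∧ β < c w)
    {Y : Type} (hKJ : #(K → K) < #J) (hYJ : #Y < #J) (p : Cn J be lv × Random K) :
    p ∈ fnot (DomLe (Cn J be lv × Random K) K Z Y) := by
  classical
  intro q _ hq
  obtain ⟨r, _, D, hD1, hD2⟩ := mem_fex.1 hq q le_rfl
  have hK0 : ℵ₀ ≤ #K := inf_K hO
  have hKK : (2 : Cardinal.{0}) ^ #K ≤ #(K → K) := by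
    rw [mk_arrow, lift_id]
    exact power_le_power_right ((natCast_lt_aleph0 (n := 2)).le.trans hK0)
  have h2J : (2 : Cardinal.{0}) ^ #K < #J := hKK.trans_lt hKJ
  have hKJ' : #K < #J := (cantor _).trans h2J
  have hJ0 : ℵ₀ < #J := hK0.trans_lt hKJ'
  -- small families of conditions which decide the values
  have h1 : ∀ (y : Y) (α : K), ∃ (ι : Type) (d : ι → Cn J be lv), #ι ≤ 2 ^ #K ∧
      (∀ i, ∀ b : Random K, ∃ b' ≤ b,
      (∃ β, (d i, b') ∈ meets (D y α β)) ∨ ∀ s, s ≤ (d i, b') → ¬ s ≤ r) ∧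
      ∀ a, ∃ i, Agree a (d i) := by
    intro y α
    refine small_all hO (D := {a' : Cn J be lv | ∀ b : Random K, ∃ b' ≤ b,
      (a', b') ∈ {p : Cn J be lv × Random K | (∃ β, p ∈ meets (D y α β)) ∨ ∀ s, s ≤ p → ¬ s ≤ r}})
      fun a => core hO ?_ ?_ a
    · rintro p (⟨β, hβ⟩ | hp) q hq
      · exact Or.inl ⟨β, (reg_meets _).1 _ hβ _ hq⟩
      · exact Or.inr fun s hs => hp s (hs.trans hq)
    · intro p
      by_cases hp : ∃ s, s ≤ p ∧ s ≤ r
      · obtain ⟨s, hs, hs'⟩ := hp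
        obtain ⟨t, ht, β, hβ⟩ := isFun_total ((reg_isFun _).1 r (hD1 y) s hs') α
        exact ⟨t, ht.trans hs, Or.inl ⟨β, hβ⟩⟩
      · push Not at hp
        exact ⟨p, le_rfl, Or.inr hp⟩
  choose ι d hι hd hd' using h1
  have hsupp : ∀ a : Cn J be lv, #a.dom ≤ #K := by
    intro a
    have h1 : a.dom ⊆ ⋃ i : I, {t | t ∈ a.dom ∧ lv t.2 ≤ i} := by
      intro t ht
      exact mem_iUnion.2 ⟨lv t.2, ht, le_rfl⟩
    refine (mk_le_mk_of_subset h1).trans ((mk_iUnion_le_sum_mk).trans ((sum_le_sum _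
      (fun _ => #K) fun i => (a.small i).trans ((cantor _).le.trans (hO.lt i).le)).trans ?_))
    rw [sum_const']
    exact (mul_le_mul' hO.idx le_rfl).trans (mul_eq_self hK0).le
  -- the support
  let SS : Set J := ⋃ u : Y × K, ⋃ x : ι u.1 u.2, Prod.fst '' (d u.1 u.2 x).dom
  obtain ⟨j, hj⟩ : ∃ j, j ∉ SS := by
    by_contra hcon
    push Not at hcon
    have h1 : #J ≤ #SS := by
      rw [eq_univ_of_forall hcon, mk_univ]
    have h2 : #SS ≤ #Y * #K * (2 ^ #K * #K) := by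
      refine (mk_iUnion_le_sum_mk).trans ((sum_le_sum _ (fun _ => 2 ^ #K * #K)
        fun u => ?_).trans ?_)
      · refine (mk_iUnion_le_sum_mk).trans ((sum_le_sum _ (fun _ => #K) fun x => ?_).trans ?_)
        · exact mk_image_le.trans (hsupp _)
        · rw [sum_const']
          exact mul_le_mul' (hι _ _) le_rfl
      · rw [sum_const', mk_prod]
        simp only [lift_id]
        exact le_rfl
    refine absurd (h1.trans h2) (not_le.2 ?_)
    exact mul_lt_of_lt hJ0.le (mul_lt_of_lt hJ0.le hYJ hKJ') (mul_lt_of_lt hJ0.le h2J hKJ')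
  -- the new function
  obtain ⟨w0, hw0⟩ : ∃ w0 : K, lv w0 = i0 := by
    have : Nonempty {x : K // lv x = i0} := by
      rw [← mk_ne_zero_iff, hO.lev]
      exact (aleph0_pos.trans_le (two_pow_inf hO i0)).ne'
    obtain ⟨w⟩ := this
    exact ⟨w.1, w.2⟩
  -- coordinates in the level `i0`
  let cd : K → K := fun α => if lv (blk α) = i0 then blk α else w0
  have hcd : ∀ α, lv (cd α) = i0 := by
    intro α
    by_cases h : lv (blk α) = i0
    · simp only [cd, if_pos h]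
      exact h
    · simp only [cd, if_neg h]
      exact hw0
  let f : K → Z → Set (Cn J be lv × Random K) := fun α β =>
    {p | (j, cd α) ∈ p.1.dom ∧ c (p.1.val (j, cd α)) = β}
  have hfm : ∀ α β, ∀ p ∈ f α β, p ∈ meets (f α β) := by
    intro α β p hp s hs
    exact ⟨s, le_rfl, p, hp, hs⟩
  have hfm' : ∀ α β, ∀ p ∈ meets (f α β), ∃ s ≤ p, s ∈ f α β := by
    intro α β p hp
    obtain ⟨s, hs, t, ht, hst⟩ := hp p le_rfl
    refine ⟨s, hs, hst.1.1 ht.1, ?_⟩
    rw [hst.1.2 _ ht.1]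
    exact ht.2
  have hdown : ∀ α β, ∀ p ∈ f α β, ∀ s ≤ p, s ∈ f α β := by
    intro α β p hp s hs
    refine ⟨hs.1.1 hp.1, ?_⟩
    rw [hs.1.2 _ hp.1]
    exact hp.2
  have hfun : ∀ p, p ∈ IsFun f := by
    intro p
    refine ⟨fun α => mem_fex.2 fun s _ => ?_, fun α β β' hne s _ hs => ?_⟩
    · by_cases hdom : (j, cd α) ∈ s.1.dom
      · exact ⟨s, le_rfl, _, hfm _ _ _ ⟨hdom, rfl⟩⟩
      · obtain ⟨a', ha1, ha2, ha3⟩ := exists_ext hO s.1 _ hdom (cd α) rfl
        exact ⟨(a', s.2), ⟨ha1, le_rfl⟩, _, hfm _ _ _ ⟨ha2, rfl⟩⟩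
    · obtain ⟨t, ht, ht'⟩ := hfm' _ _ _ hs.1
      obtain ⟨t', htt, ht''⟩ := hfm' _ _ _ ((reg_meets _).1 _ hs.2 _ ht)
      exact hne ((hdown _ _ _ ht' _ htt).2.symm.trans ht''.2)
  obtain ⟨r1, hr1, h2⟩ := mem_fimp.1 (hD2 f) r le_rfl (hfun r)
  obtain ⟨r2, hr2, y, h3⟩ := mem_fex.1 h2 r1 le_rfl
  obtain ⟨r3, hr3, μ, h4⟩ := mem_fex.1 h3 r2 le_rfl
  obtain ⟨r4, hr4, hμ, h5⟩ := mem_fex.1 h4 r3 le_rfl
  obtain ⟨r5', hr5', S, hS1, hS2⟩ := mem_fex.1 h5 r4 le_rfl
  obtain ⟨i1, hi1⟩ := hO.ex _ (hμ.trans_le hZ)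
  obtain ⟨c5, hc5, C, hC, hC'⟩ := values hO hS1 (i := i1) (by
    rw [mk_out]
    exact hi1.trans (cantor _).le)
  have hC2 : #C < #K := hC.trans_lt (hO.lt i1)
  obtain ⟨r5, hr5d⟩ : ∃ r5 : Cn J be lv × Random K, r5 = (c5, r5'.2) := ⟨_, rfl⟩
  have hr55 : r5 ≤ r5' := by
    rw [hr5d]
    exact ⟨hc5, le_rfl⟩
  have hr5c : r5.1 ≤ c5 := by rw [hr5d]
  have hr5r : r5 ≤ r := hr55.trans (hr5'.trans (hr4.trans (hr3.trans (hr2.trans hr1))))
  obtain ⟨w, hwi, hw⟩ : ∃ w, lv w = i0 ∧ (j, w) ∉ r5.1.dom := by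
    by_contra hcon
    push Not at hcon
    have h6 : #{x : K // lv x = i0} ≤ #{t : J × K // t ∈ r5.1.dom ∧ lv t.2 ≤ i0} :=
      mk_le_of_injective (f := fun x : {x : K // lv x = i0} =>
        (⟨(j, x.1), hcon x.1 x.2, x.2.le⟩ : {t : J × K // t ∈ r5.1.dom ∧ lv t.2 ≤ i0}))
        fun x x' h => Subtype.ext (congrArg (fun t => t.1.2) h)
    rw [hO.lev] at h6
    exact absurd (h6.trans (r5.1.small i0)) (not_le.2 (cantor _))
  obtain ⟨α, hα, hαC⟩ : ∃ α, blk α = w ∧ α ∉ C := by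
    by_contra hcon
    push Not at hcon
    have h6 : #{α // blk α = w} ≤ #C :=
      mk_le_of_injective (f := fun α : {α // blk α = w} => (⟨α.1, hcon α.1 α.2⟩ : C))
        fun a a' h => Subtype.ext (congrArg (fun x : C => x.1) h)
    rw [hblk] at h6
    exact absurd h6 (not_le.2 hC2)
  have hcdα : cd α = w := by
    simp only [cd, hα, hwi, if_true]
  obtain ⟨i, hi⟩ := hd' y α r5.1
  obtain ⟨a1, ha1, ha1', ha1d⟩ := glue2 hO hi
  obtain ⟨b', hb', hdec⟩ := hd y α i r5.2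
  have hle : ((a1, b') : Cn J be lv × Random K) ≤ r5 := ⟨ha1, hb'⟩
  rcases hdec with ⟨β, hβ⟩ | hdec
  swap
  · exact hdec (a1, b') ⟨ha1', le_rfl⟩ (hle.trans hr5r)
  have hndom : (j, w) ∉ a1.dom := by
    intro h
    rcases ha1d _ h with h | h
    · exact hw h
    · exact hj (mem_iUnion.2 ⟨(y, α), mem_iUnion.2 ⟨i, _, h, rfl⟩⟩)
  obtain ⟨η, hηi, hη⟩ := hc β
  obtain ⟨a2, ha2, ha2d, ha2v⟩ := exists_ext hO a1 _ hndom η (hηi.trans hwi.symm)
  have hle2 : ((a2, b') : Cn J be lv × Random K) ≤ (a1, b') := ⟨ha2, le_rfl⟩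
  have h6 : (a2, b') ∈ meets (f α (c η)) := by
    refine hfm _ _ _ ⟨?_, ?_⟩
    · rw [hcdα]
      exact ha2d
    · rw [hcdα]
      exact congrArg c ha2v
  have h7 : (a2, b') ∈ meets (D y α β) :=
    (reg_meets _).1 _ hβ _ ⟨ha2.trans ha1', le_rfl⟩
  have hle5 : ((a2, b') : Cn J be lv × Random K) ≤ r5 := hle2.trans hle
  obtain ⟨s, hs, h8⟩ := mem_fimp.1 (hS2 α (c η) β hη) (a2, b') (hle5.trans hr55) ⟨h6, h7⟩
  obtain ⟨s', hs', k, hk⟩ := mem_fex.1 h8 s le_rfl
  have hs5 : s' ≤ r5 := hs'.trans (hs.trans hle5)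
  exact hαC (hC' k α s' (hs5.trans hr55) (hs5.1.trans hr5c) hk)

end Product

end Pool.Agent.Helper75.HD
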