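import Pool.Agent.Helper75.HD.Fc

/-!
# The meaning of the sentence over the trivial forcing, and the choice of the parameters
-/

set_option autoImplicit false
set_option linter.unusedSectionVars false

namespace Pool.Agent.Helper75.HD

open Cardinal MeasureTheory Set Filter Topology
open Pool.Agent.TH773.PSet Pool.Agent.R593.Rnd Pool.Agent.R592.Ent
open Pool.Agent.R592.Hd (EvDiff BLe DLe StaysCardinal bNe dEmpty dHigh fam dEmpty_iff bNe_iff bNe_le
  unit_bLe unit_dLe unit_staysCardinal)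
open scoped ENNReal

lemma dHigh_iff {lam θ : Cardinal.{0}} (hθ : θ ≠ 0) (Y : Type) :
    (∃ D : Y → lam.ord.ToType → θ.ord.ToType, ∀ f : lam.ord.ToType → θ.ord.ToType, ∃ y,
      #{α // D y α < f α} < θ) ↔ dHigh lam θ ≤ #Y := by
  have hne : Nonempty θ.ord.ToType := by
    rw [← mk_ne_zero_iff, mk_ord_toType]
    exact hθ
  have h := fam (T := lam.ord.ToType → θ.ord.ToType)
    (fun D => ∀ f : lam.ord.ToType → θ.ord.ToType, ∃ g ∈ D, #{α // g α < f α} < θ)
    (fun s t hst hs f => by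
      obtain ⟨g, hg, h⟩ := hs f
      exact ⟨g, hst hg, h⟩)
    (fun h => by
      obtain ⟨g, hg, -⟩ := h fun _ => Classical.choice hne
      exact hg.elim)
    (fun f => ⟨f, trivial, by
      have : IsEmpty {α // f α < f α} := ⟨fun α => lt_irrefl _ α.2⟩
      rw [mk_eq_zero]
      exact pos_iff_ne_zero.2 hθ⟩) Y
  rw [dHigh, ← h]
  refine exists_congr fun D => forall_congr' fun f => ?_
  exact (exists_range_iff (f := D) (p := fun g => #{α // g α < f α} < θ)).symm

theorem unit_almLe {X Z : Type} [LT Z] {f g : X → Z → Set Unit} {f' g' : X → Z} {p : Unit}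
    (hf : ∀ n a, () ∈ f n a ↔ f' n = a) (hg : ∀ n a, () ∈ g n a ↔ g' n = a) :
    p ∈ AlmLe f g ↔ #{α // g' α < f' α} < #Z := by
  simp only [AlmLe, mem_fall, unit_fex, mem_fand, unit_fimp, unit_meets, unit_isFun, hf, hg]
  constructor
  · rintro ⟨μ, hμ, S, ⟨s, hs⟩, h⟩
    refine lt_of_le_of_lt ?_ hμ
    have h1 : ∀ α : {α // g' α < f' α}, ∃ i : μ.out, s i = α.1 := by
      intro α
      obtain ⟨i, hi⟩ := h α.1 _ _ α.2 ⟨rfl, rfl⟩
      exact ⟨i, (hs i _).1 hi⟩
    choose i hi using h1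
    calc _ ≤ #μ.out := mk_le_of_injective (f := i) fun α β h => by
          apply Subtype.ext
          rw [← hi α, ← hi β, h]
      _ = μ := mk_out μ
  · intro h
    obtain ⟨e⟩ : Nonempty ((#{α // g' α < f' α}).out ≃ {α // g' α < f' α}) := by
      rw [← Cardinal.eq, mk_out]
    refine ⟨_, h, fun i α => {_p | (e i).1 = α}, ⟨fun i => (e i).1, fun _ _ => Iff.rfl⟩, ?_⟩
    rintro α _ _ hlt ⟨rfl, rfl⟩
    refine ⟨e.symm ⟨α, hlt⟩, ?_⟩
    show (e (e.symm ⟨α, hlt⟩)).1 = α
    rw [Equiv.apply_symm_apply]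

theorem unit_domLe {X Z Y : Type} [LT Z] {p : Unit} : p ∈ DomLe Unit X Z Y ↔
    ∃ D : Y → X → Z, ∀ f : X → Z, ∃ y, #{α // D y α < f α} < #Z := by
  simp only [DomLe, unit_fex, mem_fand, mem_fall, unit_isFun, unit_fimp]
  constructor
  · rintro ⟨D, hD, h⟩
    choose D' hD' using hD
    refine ⟨D', fun f => ?_⟩
    obtain ⟨y, hy⟩ := h (fun n k => {_p | f n = k}) ⟨f, fun _ _ => Iff.rfl⟩
    exact ⟨y, (unit_almLe (f' := f) (g' := D' y) (fun _ _ => Iff.rfl) (hD' y)).1 hy⟩
  · rintro ⟨D, h⟩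
    refine ⟨fun y n k => {_p | D y n = k}, fun y => ⟨D y, fun _ _ => Iff.rfl⟩, ?_⟩
    rintro f ⟨f', hf'⟩
    obtain ⟨y, hy⟩ := h f'
    exact ⟨y, (unit_almLe hf' fun _ _ => Iff.rfl).2 hy⟩

/-- **The meaning of the sentence `Model`.** -/
theorem unit_model {κ ν : Cardinal.{0}} {p : Unit} :
    p ∈ Model Unit κ ν ↔ (κ = 𝔠 ∧ bNe = 𝔠 ∧ dEmpty ≤ ν ∧
      ∀ θ : Cardinal.{0}, ℵ₀ ≤ θ → θ ≤ 𝔠 → ν < dHigh 𝔠 θ) := by
  have h1 : (∀ μ : Cardinal.{0}, μ < κ → ¬ bNe ≤ μ) ↔ κ ≤ bNe := by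
    constructor
    · intro h
      by_contra hlt
      exact h bNe (not_le.1 hlt) le_rfl
    · intro h μ hμ h'
      exact absurd (h.trans h') (not_le.2 hμ)
  have h0 : ∀ θ : Cardinal.{0}, ℵ₀ ≤ θ → ((∃ D : ν.out → κ.ord.ToType → θ.ord.ToType,
      ∀ f : κ.ord.ToType → θ.ord.ToType, ∃ y, #{α // D y α < f α} < θ) ↔ dHigh κ θ ≤ ν) := by
    intro θ hθ
    have := dHigh_iff (lam := κ) (θ := θ) (aleph0_pos.trans_le hθ).ne' ν.out
    rwa [mk_out] at this
  simp only [Model, mem_fand, unit_staysCardinal, true_and, unit_continuumLe, mem_fall,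
    unit_fnot, unit_bLe, unit_dLe, unit_domLe, unit_fimp, mk_out, h1, mk_ord_toType,
    forall_const]
  constructor
  · rintro ⟨h2, h3, h4, h5⟩
    have h6 : κ = 𝔠 := le_antisymm (h3.trans bNe_le) h2
    have h7 : bNe = 𝔠 := le_antisymm bNe_le (h2.trans h3)
    refine ⟨h6, h7, ?_, fun θ hθ hθ' => ?_⟩
    · obtain ⟨e⟩ : Nonempty (κ.ord.ToType ≃ (ℕ → ℕ)) := by
        rw [← Cardinal.eq, mk_ord_toType, h6]
        simp
      have := (dEmpty_iff _ ν.out e).1 h4
      rwa [mk_out] at this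
    · by_contra hle
      rw [not_lt, ← h6] at hle
      exact h5 θ hθ (hθ'.trans_eq h6.symm) ((h0 θ hθ).2 hle)
  · rintro ⟨h2, h3, h4, h5⟩
    refine ⟨h2.ge, (h2.trans h3.symm).le, ?_, fun θ hθ hθ' h6 => ?_⟩
    · obtain ⟨e⟩ : Nonempty (κ.ord.ToType ≃ (ℕ → ℕ)) := by
        rw [← Cardinal.eq, mk_ord_toType, h2]
        simp
      refine (dEmpty_iff _ ν.out e).2 ?_
      rwa [mk_out]
    · have h7 := (h0 θ hθ).1 h6
      rw [h2] at h7
      exact absurd h7 (not_le.2 (h5 θ hθ (hθ'.trans_eq h2)))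

/-! ### The choice of the parameters -/

lemma surj_level {I K : Type} [LinearOrder I] {be : I → Cardinal.{0}} {lv : K → I}
    (hO : Ok be lv) (i : I) {T Z : Type} [LT Z] (hT : #T ≤ 2 ^ be i) (c : T → Z)
    (hc : ∀ β, ∃ t, β < c t) (hne : Nonempty T) : ∃ c' : K → Z, ∀ β, ∃ w, lv w = i ∧ β < c' w := by
  classical
  have h1 : #T ≤ #{x : K // lv x = i} := hT.trans_eq (hO.lev i).symm
  obtain ⟨E⟩ := h1
  refine ⟨fun x => if h : ∃ t, (E t).1 = x then c h.choose else c (Classical.choice hne),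
    fun β => ?_⟩
  obtain ⟨t, ht⟩ := hc β
  refine ⟨(E t).1, (E t).2, ?_⟩
  have h2 : ∃ t', (E t').1 = (E t).1 := ⟨t, rfl⟩
  have h3 : h2.choose = t := E.injective (Subtype.ext h2.choose_spec)
  show β < if h : ∃ t', (E t').1 = (E t).1 then c h.choose else c (Classical.choice hne)
  rw [dif_pos h2, h3]
  exact ht

open Ordinal in
theorem exists_model : ∃ (κ ν : Cardinal.{0}) (P : Type) (_ : Preorder P), Nonempty P ∧
    ∀ p : P, p ∈ Model.{0, 0} P κ ν := by
  let κ : Cardinal.{0} := ℶ_ ω₁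
  let K : Type := κ.ord.ToType
  have hK : #K = κ := mk_ord_toType κ
  let I : Type := (ℵ₁ : Cardinal.{0}).ord.ToType
  have hI : #I = ℵ₁ := mk_ord_toType _
  have hw : (ℵ₁ : Cardinal.{0}).ord = ω₁ := ord_aleph 1
  have hlim : Order.IsSuccLimit (ω₁ : Ordinal.{0}) := Cardinal.isSuccLimit_omega 1
  have hKc : 𝔠 < κ := by
    rw [← beth_one]
    exact beth_strictMono (by simpa using one_lt_omega0.trans omega0_lt_omega_one)
  have hIK : ℵ₁ ≤ κ := aleph_one_le_continuum.trans hKc.le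
  have hK0 : ℵ₀ ≤ κ := aleph0_lt_aleph_one.le.trans hIK
  -- the levels
  let be : I → Cardinal.{0} := fun i => ℶ_ (ToType.mk.symm i : Ordinal)
  have hbe : ∀ i, (2 : Cardinal.{0}) ^ be i = ℶ_ (Order.succ (ToType.mk.symm i : Ordinal)) := by
    intro i
    exact (beth_succ _).symm
  have hiw : ∀ i : I, (ToType.mk.symm i : Ordinal) < ω₁ := by
    intro i
    rw [← hw]
    exact (ToType.mk.symm i).2
  have hlt : ∀ i, (2 : Cardinal.{0}) ^ be i < κ := by
    intro i
    rw [hbe]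
    exact beth_strictMono (hlim.succ_lt (hiw i))
  have hsup : κ = ⨆ a : Iio (ω₁ : Ordinal.{0}), ℶ_ a := beth_limit hlim
  have hex : ∀ μ < κ, ∃ i, μ ≤ be i := by
    intro μ hμ
    rw [hsup] at hμ
    obtain ⟨⟨a, ha⟩, h3⟩ := exists_lt_of_lt_ciSup' hμ
    have ha' : a < (ℵ₁ : Cardinal.{0}).ord := by
      rw [hw]
      exact ha
    refine ⟨ToType.mk ⟨a, ha'⟩, ?_⟩
    show μ ≤ ℶ_ (ToType.mk.symm (ToType.mk ⟨a, ha'⟩) : Ordinal)
    rw [OrderIso.symm_apply_apply]
    exact h3.le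
  obtain ⟨e⟩ : Nonempty (K ≃ Σ i : I, (2 ^ be i : Cardinal.{0}).out) := by
    rw [← Cardinal.eq, mk_sigma]
    simp only [mk_out]
    apply le_antisymm
    · rw [hK, hsup]
      refine ciSup_le' fun a => ?_
      obtain ⟨i, hi⟩ := hex (ℶ_ a.1) (beth_strictMono a.2)
      exact (hi.trans (cantor _).le).trans (le_sum (fun i : I => (2 : Cardinal.{0}) ^ be i) i)
    · refine (sum_le_sum _ (fun _ => κ) fun i => (hlt i).le).trans ?_
      rw [sum_const', hK, hI]
      exact (mul_le_mul' hIK le_rfl).trans (mul_eq_self hK0).le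
  let lv : K → I := fun x => (e x).1
  have hIne : Nonempty I := by
    rw [← mk_ne_zero_iff, hI]
    exact (aleph_pos 1).ne'
  have hO : Ok be lv := by
    refine ⟨hIne, fun i => aleph0_le_beth _, fun i j hij => ?_, fun i => ?_, fun i => ?_,
      fun i => ?_, fun μ hμ => ?_, ?_⟩
    · rw [hbe]
      show ℶ_ _ ≤ ℶ_ (ToType.mk.symm j : Ordinal)
      rw [beth_le_beth]
      refine Order.succ_le_of_lt ?_
      exact (ToType.mk.symm.lt_iff_lt.2 hij : ToType.mk.symm i < ToType.mk.symm j)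
    · have h1 : #(Iio i) < ℵ₁ := mk_Iio_ord_toType i
      have h2 : (Iio i).Countable := by
        rw [← le_aleph0_iff_set_countable]
        exact Order.lt_succ_iff.1 (h1.trans_eq succ_aleph0.symm)
      rw [← Iio_insert]
      exact h2.insert i
    · calc #{x : K // lv x = i} = #{s : Σ i : I, (2 ^ be i : Cardinal.{0}).out // s.1 = i} :=
            Cardinal.mk_congr (e.subtypeEquiv fun x => Iff.rfl)
        _ = #(2 ^ be i : Cardinal.{0}).out := Cardinal.mk_congr (Equiv.sigmaSubtype i)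
        _ = 2 ^ be i := mk_out _
    · rw [hK]
      exact hlt i
    · rw [hK] at hμ
      exact hex μ hμ
    · rw [hK, hI]
      exact hIK
  -- the blocks
  obtain ⟨e2⟩ : Nonempty (K ≃ K × K) := by
    rw [← Cardinal.eq, mk_prod, Cardinal.lift_id, hK]
    exact (mul_eq_self hK0).symm
  let blk : K → K := fun α => (e2 α).2
  have hblk : ∀ w, #{α // blk α = w} = #K := by
    intro w
    refine Cardinal.eq.2 ⟨⟨fun α => (e2 α.1).1, fun k => ⟨e2.symm (k, w), ?_⟩, ?_, ?_⟩⟩
    · show (e2 (e2.symm (k, w))).2 = w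
      rw [Equiv.apply_symm_apply]
    · rintro ⟨α, hα⟩
      apply Subtype.ext
      show e2.symm ((e2 α).1, w) = α
      rw [← hα]
      show e2.symm ((e2 α).1, (e2 α).2) = α
      simp
    · intro k
      show (e2 (e2.symm (k, w))).1 = k
      rw [Equiv.apply_symm_apply]
  -- countable sequences
  have hpow : #K ^ ℵ₀ = #K := by
    refine le_antisymm ?_ (self_le_power _ (one_le_aleph0))
    have h1 : #(ℕ × K) = #K := by
      rw [mk_prod, Cardinal.lift_id, Cardinal.lift_id, mk_nat, hK]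
      exact mul_eq_right hK0 hK0 aleph0_ne_zero
    have hcof : ℵ₀ < (#(ℕ × K)).ord.cof := by
      rw [h1, hK]
      have h2 : Order.IsNormal fun o : Ordinal.{0} => (ℶ_ o).ord :=
        isNormal_ord.comp isNormal_beth
      have h3 := cof_map_of_isNormal h2 hlim
      show ℵ₀ < (ℶ_ ω₁).ord.cof
      rw [h3, cof_omega_one]
      exact aleph0_lt_aleph_one
    have hsl : IsStrongPrelimit #(ℕ × K) := by
      rw [h1, hK]
      exact (isStrongLimit_beth.2 hlim.isSuccPrelimit).isStrongPrelimit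
    calc #K ^ ℵ₀ = #(ℕ → K) := by rw [mk_arrow, Cardinal.lift_id, Cardinal.lift_id, mk_nat]
      _ ≤ #{s : Set (ℕ × K) // #s < (#(ℕ × K)).ord.cof} := by
        refine mk_le_of_injective (f := fun f => ⟨range fun n => (n, f n),
          mk_range_le.trans_lt (by rwa [mk_nat])⟩) fun f g h => ?_
        have h' : (range fun n => (n, f n)) = range fun n => (n, g n) := congrArg Subtype.val h
        funext n
        have h2 : (n, f n) ∈ range fun n => (n, g n) := by
          rw [← h']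
          exact ⟨n, rfl⟩
        obtain ⟨m, hm⟩ := h2
        have h3 : m = n := congrArg Prod.fst hm
        have h4 : g m = f n := congrArg Prod.snd hm
        rw [← h4, h3]
      _ = #(ℕ × K) := mk_subset_mk_lt_cof hsl
      _ = #K := h1
  let ν : Cardinal.{0} := #(K → K)
  let J : Type := (Order.succ ν).out
  have hJ : #J = Order.succ ν := mk_out _
  have hνJ : ν < #J := by
    rw [hJ]
    exact Order.lt_succ ν
  have hJne : Nonempty J := by
    rw [← mk_ne_zero_iff]
    exact (lt_of_le_of_lt zero_le hνJ).ne'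
  -- the functions to `θ`
  have hθ : ∀ θ : Cardinal.{0}, ℵ₀ ≤ θ → θ ≤ κ → ∃ (i : I) (c : K → θ.ord.ToType),
      ∀ β, ∃ w, lv w = i ∧ β < c w := by
    intro θ h1 h2
    rcases h2.lt_or_eq with h2 | h2
    · obtain ⟨i, hi⟩ := hex θ h2
      have := noMaxOrder h1
      refine ⟨i, surj_level hO i (T := θ.ord.ToType) ?_ id (fun β => exists_gt β) ?_⟩
      · rw [mk_ord_toType]
        exact hi.trans (cantor _).le
      · rw [← mk_ne_zero_iff, mk_ord_toType]
        exact (aleph0_pos.trans_le h1).ne'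
    · subst h2
      obtain ⟨i⟩ := hIne
      have hord : ∀ w : I, (be w).ord < κ.ord := by
        intro w
        rw [ord_lt_ord]
        exact (cantor _).trans (hlt w)
      let c : I → K := fun w => ToType.mk ⟨_, hord w⟩
      refine ⟨i, surj_level hO i (T := I) ?_ c (fun β => ?_) ⟨i⟩⟩
      · rw [hI]
        exact aleph_one_le_continuum.trans
          ((two_power_aleph0.symm.le).trans (power_le_power_left two_ne_zero (hO.inf i)))
      · have h1 : (ToType.mk.symm β : Ordinal) < κ.ord := (ToType.mk.symm β).2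
        rw [lt_ord] at h1
        obtain ⟨w, hw⟩ := hex _ (h1.trans_le le_rfl)
        obtain ⟨w', hw'⟩ := hex _ (hlt w)
        refine ⟨w', ?_⟩
        rw [← ToType.mk.symm.lt_iff_lt]
        show (ToType.mk.symm β) < ToType.mk.symm (ToType.mk ⟨_, hord _⟩)
        rw [OrderIso.symm_apply_apply]
        show (ToType.mk.symm β : Ordinal) < (be w').ord
        rw [lt_ord]
        exact hw.trans_lt ((cantor _).trans_le hw')
  refine ⟨κ, ν, Cn J be lv × Random K, inferInstance, ?_, fun p => ?_⟩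
  · exact ⟨emp J be lv, ⟨Set.univ, MeasurableSet.univ, by simp⟩⟩
  · refine ⟨staysCardinal hO p, continuumLe hO hpow rfl p,
      fun μ hμ => ?_, dLe hO (by rw [mk_out]) p, fun θ h1 h2 => mem_fimp.2 fun q _ _ =>
        ⟨q, le_rfl, ?_⟩⟩
    · exact not_bLe hO (by rw [mk_out, hK]; exact hμ) p
    · obtain ⟨i, c, hc⟩ := hθ θ h1 h2
      exact not_domLe hO (by rw [mk_ord_toType, hK]; exact h2) blk hblk i c hc hνJ
        (by rwa [mk_out]) q

end Pool.Agent.Helper75.HD
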